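import Pool.Agent.H47.PT.T.SQF
import Pool.Agent.H47.PD.T.CHARP
import Pool.Agent.H47.PF.Cnt
import Pool.Agent.H47.PF.Fin

/-!
# PT-BAD: the Pfaffian polynomial is squarefree for almost all matrices
-/

set_option autoImplicit false

namespace Pool.Agent.H47.PT.BAD

open Matrix Polynomial Pool.Agent.H47.PF

noncomputable section

theorem cyc_ge (q n : ℕ) (hq : 1 ≤ q) :
    1 - (n : ℝ) / q ≤ ∏ m ∈ Finset.range n, (1 - 1 / (q : ℝ) ^ (2 * (m + 1))) ∧
      ∏ m ∈ Finset.range n, (1 - 1 / (q : ℝ) ^ (2 * (m + 1))) ≤ 1 := by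
  have hq1 : (1 : ℝ) ≤ q := by exact_mod_cast hq
  have hq0 : (0 : ℝ) < q := by linarith
  induction n with
  | zero => simp
  | succ n ih =>
    obtain ⟨h1, h2⟩ := ih
    rw [Finset.prod_range_succ]
    set P : ℝ := ∏ m ∈ Finset.range n, (1 - 1 / (q : ℝ) ^ (2 * (m + 1))) with hP
    have hP0 : 0 ≤ P := by
      refine Finset.prod_nonneg fun m _ => ?_
      have h1 : (1 : ℝ) ≤ (q : ℝ) ^ (2 * (m + 1)) := one_le_pow₀ hq1
      have : 1 / (q : ℝ) ^ (2 * (m + 1)) ≤ 1 := by
        rw [div_le_one (by linarith)]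
        exact h1
      linarith
    have h3 : 1 / (q : ℝ) ^ (2 * (n + 1)) ≤ 1 / q := by
      refine one_div_le_one_div_of_le hq0 ?_
      exact le_self_pow₀ hq1 (by omega)
    have h4 : 0 ≤ 1 / (q : ℝ) ^ (2 * (n + 1)) := by positivity
    have h5 : P * (1 / (q : ℝ) ^ (2 * (n + 1))) ≤ 1 / q := by
      calc P * (1 / (q : ℝ) ^ (2 * (n + 1))) ≤ 1 * (1 / (q : ℝ) ^ (2 * (n + 1))) :=
            mul_le_mul_of_nonneg_right h2 h4
        _ ≤ 1 / q := by rw [one_mul]; exact h3
    have h6 : 0 ≤ P * (1 / (q : ℝ) ^ (2 * (n + 1))) := mul_nonneg hP0 h4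
    have h7 : ((n + 1 : ℕ) : ℝ) / q = n / q + 1 / q := by
      push_cast
      rw [add_div]
    rw [h7]
    constructor
    · nlinarith
    · nlinarith

variable {F : Type} [Field F]

theorem squarefree_comp (f : F[X]) (h : Squarefree f) : Squarefree (f.comp (-X)) := by
  intro x hx
  have hc : ∀ p : F[X], (p.comp (-X)).comp (-X) = p := by
    intro p
    rw [comp_assoc, neg_comp, X_comp, neg_neg, comp_X]
  have h1 : x.comp (-X) * x.comp (-X) ∣ f := by
    obtain ⟨y, hy⟩ := hx
    refine ⟨y.comp (-X), ?_⟩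
    rw [← hc f, hy, mul_comp, mul_comp]
  have h2 : IsUnit (x.comp (-X)) := h _ h1
  have h3 : IsUnit ((x.comp (-X)).comp (-X)) := h2.map (compRingHom (-X : F[X]))
  rwa [hc] at h3

/-- the coefficients of the squarefree polynomials -/
def Psq (F : Type) [Field F] (g : ℕ) : Set (Fin g → F) :=
  {c | Squarefree (X ^ g + ∑ j : Fin g, C (c j) * X ^ (j : ℕ) : F[X])}

theorem card_Psq [Fintype F] (g : ℕ) (hg : 1 ≤ g) :
    (1 - (g : ℝ) / Fintype.card F) * (Fintype.card F : ℝ) ^ g ≤ Nat.card (Psq F g) := by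
  classical
  have h1 := SQF.main F g hg
  have h2 : Nat.card (Psq F g) + Nat.card {c : Fin g → F //
      ¬ Squarefree (X ^ g + ∑ j : Fin g, C (c j) * X ^ (j : ℕ) : F[X])} = Fintype.card F ^ g := by
    have := Fintype.card_subtype_compl (fun c : Fin g → F =>
      Squarefree (X ^ g + ∑ j : Fin g, C (c j) * X ^ (j : ℕ) : F[X]))
    have h3 := Fintype.card_subtype_le (fun c : Fin g → F =>
      Squarefree (X ^ g + ∑ j : Fin g, C (c j) * X ^ (j : ℕ) : F[X]))
    have h4 : Fintype.card (Fin g → F) = Fintype.card F ^ g := by simp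
    have h5 : Nat.card (Psq F g) = Fintype.card {c : Fin g → F //
      Squarefree (X ^ g + ∑ j : Fin g, C (c j) * X ^ (j : ℕ) : F[X])} := Nat.card_eq_fintype_card
    have h6 : Nat.card {c : Fin g → F // ¬ Squarefree (X ^ g + ∑ j : Fin g, C (c j) * X ^ (j : ℕ) : F[X])} =
      Fintype.card {c : Fin g → F // ¬ Squarefree (X ^ g + ∑ j : Fin g, C (c j) * X ^ (j : ℕ) : F[X])} :=
        Nat.card_eq_fintype_card
    rw [h5, h6]
    omega
  have hq : (0 : ℝ) < Fintype.card F := by exact_mod_cast Fintype.card_pos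
  have h3 : (Nat.card (Psq F g) : ℝ) = (Fintype.card F : ℝ) ^ g - Nat.card {c : Fin g → F //
      ¬ Squarefree (X ^ g + ∑ j : Fin g, C (c j) * X ^ (j : ℕ) : F[X])} := by
    rw [eq_sub_iff_add_eq]
    exact_mod_cast h2
  have h4 : (Nat.card {c : Fin g → F //
      ¬ Squarefree (X ^ g + ∑ j : Fin g, C (c j) * X ^ (j : ℕ) : F[X])} : ℝ) ≤
        g * (Fintype.card F : ℝ) ^ (g - 1) := by exact_mod_cast h1
  have h5 : (Fintype.card F : ℝ) ^ g = (Fintype.card F : ℝ) ^ (g - 1) * Fintype.card F := by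
    rw [← pow_succ]
    congr 1
    omega
  have h6 : (1 - (g : ℝ) / Fintype.card F) * (Fintype.card F : ℝ) ^ g =
      (Fintype.card F : ℝ) ^ g - g * (Fintype.card F : ℝ) ^ (g - 1) := by
    rw [sub_mul, one_mul]
    congr 1
    rw [h5]
    field_simp
  rw [h6, h3]
  linarith

/-- cyclic vectors whose relation has squarefree polynomial are good -/
theorem good {I : Type} [Fintype I] [DecidableEq I] (g : ℕ) (D : Matrix I I F)
    (hI : Fintype.card I = 2 * g) (hD : Al D) (hdet : IsUnit D.det) (e : I → F) (w : Matrix I I F)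
    (hcy : Cyc D e g w) (c : Fin g → F)
    (hc : Squarefree (X ^ g + ∑ j : Fin g, C (c j) * X ^ (j : ℕ) : F[X]))
    (hch : chain D e w g = -∑ j : Fin g, c j • chain D e w j) : Gd D w := by
  refine ⟨D.det, (X ^ g + ∑ j : Fin g, C (c j) * X ^ (j : ℕ) : F[X]).comp (-X), hdet.ne_zero,
    squarefree_comp _ hc, ?_⟩
  have h4 := PD.CHARP.main F I D (w - wᵀ) e g c hD.1 (by
      ext u v; rw [Matrix.transpose_apply, Matrix.neg_apply]; exact hD.2 v u)
    (fun u => by simp) (by rw [Matrix.transpose_sub, Matrix.transpose_transpose, neg_sub]) hdet hI hcy hch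
  have h5 := congrArg (fun q : F[X] => q.comp (-X)) h4
  simp only [Polynomial.mul_comp, Polynomial.C_comp, Polynomial.pow_comp] at h5
  rw [← h5]
  have e1 : (((X : F[X]) • D.map C - (w - wᵀ).map C).det).comp (-X) =
      ((-X : F[X]) • D.map C - (w - wᵀ).map C).det := by
    change Polynomial.compRingHom (-X) _ = _
    rw [RingHom.map_det]
    congr 1
    ext1 u v
    simp [Matrix.map_apply]
  rw [e1]
  have e2 : ((-X : F[X]) • D.map C - (w - wᵀ).map C) =
      -((w - wᵀ).map C + (X : F[X]) • D.map C) := by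
    rw [neg_smul, neg_add]
    abel
  rw [e2, Matrix.det_neg, hI, Even.neg_one_pow (even_two_mul g), one_mul]

theorem main : S_BAD := by
  intro g hg
  refine ⟨2 * g, by positivity, ?_⟩
  intro F _ _ I _ _ D hI hD hdet
  classical
  have hq1 : 1 ≤ Fintype.card F := Fintype.card_pos
  have hq : (0 : ℝ) < Fintype.card F := by exact_mod_cast hq1
  have hsum : (Nat.card {w : Matrix I I F // ¬ Gd D w} : ℝ) + Nat.card {w : Matrix I I F // Gd D w} =
      Nat.card (Matrix I I F) := by
    have h1 := Fintype.card_subtype_compl (fun w : Matrix I I F => Gd D w)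
    have h2 := Fintype.card_subtype_le (fun w : Matrix I I F => Gd D w)
    have h3 : Nat.card {w : Matrix I I F // ¬ Gd D w} + Nat.card {w : Matrix I I F // Gd D w} =
        Nat.card (Matrix I I F) := by
      rw [Nat.card_eq_fintype_card, Nat.card_eq_fintype_card, Nat.card_eq_fintype_card]
      omega
    exact_mod_cast h3
  set M : ℝ := ((Nat.card (Matrix I I F) : ℕ) : ℝ) with hM
  have hM0 : 0 ≤ M := by positivity
  have hG0 : (0 : ℝ) ≤ Nat.card {w : Matrix I I F // Gd D w} := by positivity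
  by_cases hqg : (Fintype.card F : ℝ) ≤ g
  · have h1 : 1 ≤ 2 * (g : ℝ) / Fintype.card F := by
      rw [le_div_iff₀ hq]
      linarith
    nlinarith
  · push Not at hqg
    have hr0 : 0 ≤ 1 - (g : ℝ) / Fintype.card F := by
      rw [sub_nonneg, div_le_one hq]
      exact hqg.le
    obtain ⟨i₀⟩ : Nonempty I := by
      rw [← Fintype.card_pos_iff]
      omega
    have he : (fun _ : I => (1 : F)) ≠ 0 := fun h => one_ne_zero (congrFun h i₀)
    have h3 := Cnt.count (F := F) Pool.Agent.H47.PF.Fin.cyc Pool.Agent.H47.PF.Fin.last D g hD hdet hI hg _ he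
      (Psq F g) (1 - (g : ℝ) / Fintype.card F) (card_Psq g hg) hr0 (fun w => Gd D w)
      (fun w hcy ⟨c, hc, hch⟩ => good g D hI hD hdet _ w hcy c hc hch)
    have h4 : 1 - (g : ℝ) / Fintype.card F ≤ Cnt.cyc (Fintype.card F) g := by
      have h5 := (cyc_ge (Fintype.card F) (g - 1) hq1).1
      have h6 : ((g - 1 : ℕ) : ℝ) / Fintype.card F ≤ (g : ℝ) / Fintype.card F := by
        refine div_le_div_of_nonneg_right ?_ hq.le
        exact_mod_cast Nat.sub_le g 1
      unfold Cnt.cyc
      linarith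
    set r : ℝ := 1 - (g : ℝ) / Fintype.card F with hr
    have h5 : (r * r) * M ≤ Nat.card {w : Matrix I I F // Gd D w} := by
      refine le_trans ?_ h3
      refine mul_le_mul_of_nonneg_right ?_ hM0
      exact mul_le_mul_of_nonneg_right h4 hr0
    have h6 : 1 - 2 * (g : ℝ) / Fintype.card F ≤ r * r := by
      have : 2 * (g : ℝ) / Fintype.card F = 2 * (1 - r) := by
        rw [hr]
        ring
      rw [this]
      nlinarith [sq_nonneg (1 - r)]
    have h7 : (1 - 2 * (g : ℝ) / Fintype.card F) * M ≤ Nat.card {w : Matrix I I F // Gd D w} :=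
      (mul_le_mul_of_nonneg_right h6 hM0).trans h5
    linarith

end

end Pool.Agent.H47.PT.BAD
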