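import Pool.Agent.H47.PT.Stm
import Pool.Agent.H47.PD.T.EX

/-!
# PT-EXR: there is a Galois number field in which finitely many integral polynomials split
-/

set_option autoImplicit false

namespace Pool.Agent.H47.PT.EXR

open Polynomial NumberField Pool.Agent.W401.Cheb Pool.Agent.H47.PD

theorem main : S_EXR := by
  intro r h hne
  obtain ⟨L, iF, iN, iG, hs⟩ := Pool.Agent.H47.PD.EX.main (∏ i, h i)
  refine ⟨L, iF, iN, iG, fun i => ?_⟩
  have hs' : IsSplittingField ℚ L ((∏ i, h i).map (Int.castRingHom ℚ)) := hs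
  have h1 : (((∏ i, h i).map (Int.castRingHom ℚ)).map (algebraMap ℚ L)).Splits :=
    IsSplittingField.splits L _
  have e : (algebraMap ℚ L).comp (Int.castRingHom ℚ) = Int.castRingHom L := RingHom.ext_int _ _
  rw [Polynomial.map_map, e] at h1
  have h2 : ((∏ i, h i).map (Int.castRingHom L)) ≠ 0 := by
    rw [Polynomial.map_ne_zero_iff (Int.cast_injective)]
    exact Finset.prod_ne_zero_iff.mpr fun j _ => hne j
  exact h1.of_dvd h2 (Polynomial.map_dvd _ (Finset.dvd_prod_of_mem h (Finset.mem_univ i)))

end Pool.Agent.H47.PT.EXR
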