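import Pool.Agent.H47.PT.Stm
import Pool.Agent.H47.PD.T.ROOTS

/-! PT-FFIX (helper33): roots modulo `p` and fixed roots -/

set_option autoImplicit false

namespace Pool.Agent.H47.PT.FFIX

open Matrix Polynomial NumberField Filter Topology Pool.Agent.W401.Cheb Pool.Agent.H47.PD

/-- `PD.S_ROOTS` with `SplIn` -/
theorem roots (h : ℤ[X]) (L : Type) [Field L] [NumberField L] [IsGalois ℚ L] (hsplit : SplIn h L)
    (p : ℕ) [Fact p.Prime] (hb : ¬ (p : ℤ) ∣ h.leadingCoeff)
    (φ : 𝓞 L →+* AlgebraicClosure (ZMod p)) : ∃ ψ : L → AlgebraicClosure (ZMod p),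
    (h.map (Int.castRingHom (AlgebraicClosure (ZMod p)))).roots =
      ((h.map (Int.castRingHom L)).roots).map ψ ∧
    ∀ σ : Gal(L/ℚ), HasFrob p φ σ → ∀ r : L, aeval r h = 0 → ψ (σ r) = ψ r ^ p := by
  classical
  set b : ℤ := h.leadingCoeff with hbdef
  have hbF : ((b : ℤ) : AlgebraicClosure (ZMod p)) ≠ 0 := by
    intro h0
    exact hb ((CharP.intCast_eq_zero_iff (AlgebraicClosure (ZMod p)) p b).1 h0)
  have hint : ∀ r : L, aeval r h = 0 → IsIntegral ℤ ((b : L) * r) := by
    intro r hr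
    have := isIntegral_leadingCoeff_smul h r hr
    rwa [zsmul_eq_mul] at this
  have hex : ∀ r : L, ∃ x : 𝓞 L, aeval r h = 0 → algebraMap (𝓞 L) L x = (b : L) * r := by
    intro r
    by_cases hr : aeval r h = 0
    · exact ⟨⟨(b : L) * r, hint r hr⟩, fun _ => rfl⟩
    · exact ⟨0, fun h' => absurd h' hr⟩
  choose s hsr using hex
  have hlead : (h.map (Int.castRingHom L)).leadingCoeff = (b : L) := by
    rw [leadingCoeff_map_of_injective (Int.cast_injective : Function.Injective (Int.castRingHom L))]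
    rfl
  have hprod := Polynomial.Splits.eq_prod_roots hsplit
  rw [hlead] at hprod
  have hmem : ∀ r ∈ (h.map (Int.castRingHom L)).roots, aeval r h = 0 := by
    intro r hr
    have h1 := isRoot_of_mem_roots hr
    rw [IsRoot, eval_map] at h1
    rw [aeval_def]
    exact h1
  refine ⟨fun r => φ (s r) / (b : AlgebraicClosure (ZMod p)), ?_, ?_⟩
  · exact PD.ROOTS.ident (RingOfIntegers.coe_injective) φ h b hbF _ s
      (fun r hr => hsr r (hmem r hr)) hprod
  · intro σ hσ r hr
    have hσr : aeval (σ r) h = 0 := by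
      have e : aeval (σ r) h = σ (aeval r h) :=
        Polynomial.aeval_algHom_apply (σ : L →+* L).toIntAlgHom r h
      rw [e, hr, map_zero]
    have h1 : s (σ r) = σ • s r := by
      apply RingOfIntegers.coe_injective
      rw [hsr _ hσr]
      have h2 : algebraMap (𝓞 L) L (σ • s r) = σ (algebraMap (𝓞 L) L (s r)) := rfl
      rw [h2, hsr r hr, map_mul, map_intCast]
    have h2 : ((b : ℤ) : AlgebraicClosure (ZMod p)) ^ p = b := by
      have := map_intCast (frobenius (AlgebraicClosure (ZMod p)) p) b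
      rwa [frobenius_def] at this
    show φ (s (σ r)) / (b : AlgebraicClosure (ZMod p)) =
      (φ (s r) / (b : AlgebraicClosure (ZMod p))) ^ p
    rw [h1, hσ, div_pow, h2]

theorem main : S_FFIX := by
  intro h L _ _ _ hS p _ hp1 hsq φ σ hσ
  classical
  have h0 : h ≠ 0 := by
    rintro rfl
    simp at hp1
  set k := AlgebraicClosure (ZMod p)
  obtain ⟨ψ, hψ, hψσ⟩ := roots h L hS p hp1 φ
  have : CharP k p := charP_of_injective_algebraMap (algebraMap (ZMod p) k).injective p
  set hz := h.map (Int.castRingHom (ZMod p)) with hhz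
  set hk := h.map (Int.castRingHom k) with hhk
  have hzk : hz.map (algebraMap (ZMod p) k) = hk := by
    rw [hhz, hhk, Polynomial.map_map]
    congr 1
  have hsep : hk.Separable := by
    rw [← hzk]
    exact (PerfectField.separable_iff_squarefree.2 hsq).map
  have hk0 : hk ≠ 0 := hsep.ne_zero
  have hnd : hk.roots.Nodup := nodup_roots hsep
  have hL0 : h.map (Int.castRingHom L) ≠ 0 := (Polynomial.map_ne_zero_iff Int.cast_injective).2 h0
  have hmem : ∀ r : L, r ∈ (h.map (Int.castRingHom L)).roots ↔ aeval r h = 0 := by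
    intro r
    rw [mem_roots hL0, IsRoot.def, eval_map]
    rfl
  have hinj : ∀ r s : L, aeval r h = 0 → aeval s h = 0 → ψ r = ψ s → r = s := by
    intro r s hr hs hrs
    rw [hψ] at hnd
    exact Multiset.inj_on_of_nodup_map hnd r ((hmem r).2 hr) s ((hmem s).2 hs) hrs
  have hev : ∀ x : ZMod p, hk.eval (algebraMap (ZMod p) k x) = algebraMap (ZMod p) k (hz.eval x) := by
    intro x
    rw [← hzk, eval_map, eval₂_at_apply]
  have hinj0 : Function.Injective (algebraMap (ZMod p) k) := (algebraMap (ZMod p) k).injective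
  -- from roots in `ZMod p` to roots in `L`
  have hex : ∀ x : {x : ZMod p // hz.eval x = 0}, ∃ r : {r : Rt h L // act h L σ r = r},
      ψ r.1.1 = algebraMap (ZMod p) k x.1 := by
    rintro ⟨x, hx⟩
    have h4 : algebraMap (ZMod p) k x ∈ hk.roots := by
      rw [mem_roots hk0, IsRoot.def, hev, hx, map_zero]
    rw [hψ, Multiset.mem_map] at h4
    obtain ⟨r, hr, hrx⟩ := h4
    have hr' := (hmem r).1 hr
    refine ⟨⟨⟨r, hr'⟩, Subtype.ext ?_⟩, hrx⟩
    show σ r = r
    have hsr : aeval (σ r) h = 0 := (act h L σ ⟨r, hr'⟩).2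
    refine hinj _ _ hsr hr' ?_
    rw [hψσ σ hσ r hr', hrx, ← map_pow, ZMod.pow_card]
  choose f hf using hex
  symm
  refine Nat.card_congr (Equiv.ofBijective f ⟨?_, ?_⟩)
  · intro x y hxy
    apply Subtype.ext
    apply hinj0
    rw [← hf x, ← hf y, hxy]
  · rintro ⟨⟨r, hr⟩, hfix⟩
    have h1 : σ r = r := congrArg Subtype.val hfix
    have h2 := hψσ σ hσ r hr
    rw [h1] at h2
    have h3 : ψ r ∈ (⊥ : Subfield k) := (Subfield.mem_bot_iff_pow_eq_self k p).2 h2.symm
    obtain ⟨z, hz'⟩ := (mem_bot_iff_intCast p k).1 h3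
    have h5 : algebraMap (ZMod p) k (z : ZMod p) = ψ r := by
      rw [map_intCast, hz']
    have h4 : ψ r ∈ hk.roots := by
      rw [hψ]
      exact Multiset.mem_map_of_mem ψ ((hmem r).2 hr)
    have h6 : hz.eval (z : ZMod p) = 0 := by
      apply hinj0
      rw [← hev, h5, map_zero]
      exact (mem_roots hk0).1 h4
    refine ⟨⟨(z : ZMod p), h6⟩, ?_⟩
    have h7 := hf ⟨(z : ZMod p), h6⟩
    apply Subtype.ext
    apply Subtype.ext
    refine hinj _ _ (f ⟨(z : ZMod p), h6⟩).1.2 hr ?_
    rw [h7, h5]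

end Pool.Agent.H47.PT.FFIX
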