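import Pool.Agent.H47.PT.Stm
import Pool.Agent.H47.PD.T.FIX

/-! PT-FIXG -/

set_option autoImplicit false

open Polynomial NumberField Pool.Agent.H47.PD

namespace Pool.Agent.H47.PT.FIXG

theorem main (hF : S_FFIX) : S_FIXG := by
  intro h L _ _ _ hS hirr
  obtain ⟨A, B, c, hc, hAB⟩ := Pool.Agent.H47.PD.FIX.bezout h hirr
  have h0 : h ≠ 0 := by
    rintro rfl
    rw [Polynomial.map_zero] at hirr
    exact hirr.ne_zero rfl
  refine ⟨h.leadingCoeff.natAbs * c.natAbs, Nat.mul_pos (Int.natAbs_pos.2 (leadingCoeff_ne_zero.2 h0))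
    (Int.natAbs_pos.2 hc), ?_⟩
  intro p hp hpD φ σ hσ
  have hp1 : ¬ (p : ℤ) ∣ h.leadingCoeff := by
    intro h1
    exact hpD ((Int.natCast_dvd.1 h1).mul_right _)
  have hp2 : ¬ (p : ℤ) ∣ c := by
    intro h1
    exact hpD ((Int.natCast_dvd.1 h1).mul_left _)
  have hcast : ∀ z : ℤ, (z : ZMod p) = 0 ↔ (p : ℤ) ∣ z := fun z => ZMod.intCast_zmod_eq_zero_iff_dvd z p
  have hsep : (h.map (Int.castRingHom (ZMod p))).Separable := by
    have h1 := congrArg (Polynomial.map (Int.castRingHom (ZMod p))) hAB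
    have e4 : (Int.castRingHom (ZMod p)) c = (c : ZMod p) := rfl
    simp only [Polynomial.map_add, Polynomial.map_mul, Polynomial.map_C, ← derivative_map, e4] at h1
    have hck : (c : ZMod p) ≠ 0 := fun h2 => hp2 ((hcast c).1 h2)
    refine ⟨C (c : ZMod p)⁻¹ * A.map (Int.castRingHom (ZMod p)),
      C (c : ZMod p)⁻¹ * B.map (Int.castRingHom (ZMod p)), ?_⟩
    have h3 : (C (c : ZMod p)⁻¹ : (ZMod p)[X]) * C (c : ZMod p) = 1 := by
      rw [← C_mul, inv_mul_cancel₀ hck, C_1]
    rw [← h3, ← h1]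
    ring
  have hcard := hF h L hS p hp1 hsep.squarefree φ σ hσ
  have hfin : Finite (Rt h L) := by
    have hL0 : h.map (Int.castRingHom L) ≠ 0 := (Polynomial.map_ne_zero_iff Int.cast_injective).2 h0
    have h5 : {r : L | aeval r h = 0}.Finite := by
      refine Set.Finite.subset (Multiset.finite_toSet (h.map (Int.castRingHom L)).roots) ?_
      intro r hr
      simp only [Set.mem_setOf_eq] at hr ⊢
      rw [mem_roots hL0, IsRoot.def, eval_map]
      exact hr
    exact h5.to_subtype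
  constructor
  · rintro ⟨r, hr⟩
    have h6 : 0 < Nat.card {r : Rt h L // act h L σ r = r} := by
      have : Nonempty {r : Rt h L // act h L σ r = r} := ⟨⟨r, hr⟩⟩
      exact Nat.card_pos
    rw [hcard] at h6
    obtain ⟨⟨x, hx⟩⟩ := (Nat.card_pos_iff.1 h6).1
    refine ⟨x.cast, ?_⟩
    rw [← hcast]
    have h7 : ((x.cast : ℤ) : ZMod p) = x := ZMod.intCast_zmod_cast x
    rw [← h7, eval_intCast_map] at hx
    exact hx
  · rintro ⟨x, hx⟩
    rw [← hcast] at hx
    have h6 : 0 < Nat.card {x : ZMod p // (h.map (Int.castRingHom (ZMod p))).eval x = 0} := by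
      have : Nonempty {x : ZMod p // (h.map (Int.castRingHom (ZMod p))).eval x = 0} := by
        refine ⟨⟨(x : ZMod p), ?_⟩⟩
        rw [eval_intCast_map]
        exact hx
      exact Nat.card_pos
    rw [← hcard] at h6
    obtain ⟨⟨r, hr⟩⟩ := (Nat.card_pos_iff.1 h6).1
    exact ⟨r, hr⟩

end Pool.Agent.H47.PT.FIXG
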