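import Pool.Agent.H47.PT.Stm

set_option autoImplicit false

namespace Pool.Agent.H47.PT.GRP

open MulAction

/-- the formula of Burnside with one or two orbits -/
theorem burn {G Y : Type} [Group G] [Fintype G] [Finite Y] (a : G →* Equiv.Perm Y) :
    ∃ m : ℕ, (∑ σ : G, (Nat.card {y : Y // a σ y = y} : ℤ)) = m * Fintype.card G ∧
      (Nonempty Y → 1 ≤ m) ∧
      ((∃ y₀, ∀ y, ∃ σ, a σ y₀ = y) → m = 1) ∧
      ((∃ y₀ y₁, (∀ σ, a σ y₀ ≠ y₁) ∧ ∀ y, (∃ σ, a σ y₀ = y) ∨ ∃ σ, a σ y₁ = y) → m = 2) := by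
  classical
  have := Fintype.ofFinite Y
  let _ : MulAction G Y := MulAction.compHom Y a
  have hsmul : ∀ (σ : G) (x : Y), σ • x = a σ x := fun σ x => rfl
  have h1 := MulAction.sum_card_fixedBy_eq_card_orbits_mul_card_group G Y
  have hrel : ∀ x y : Y, (MulAction.orbitRel G Y).r x y ↔ ∃ σ, a σ y = x := fun x y => Iff.rfl
  refine ⟨Fintype.card (Quotient (MulAction.orbitRel G Y)), ?_, ?_, ?_, ?_⟩
  · rw [← Nat.cast_mul, ← h1]
    push_cast
    refine Finset.sum_congr rfl fun σ _ => ?_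
    rw [← Nat.card_eq_fintype_card]
    rfl
  · rintro ⟨y⟩
    exact Fintype.card_pos_iff.2 ⟨Quotient.mk _ y⟩
  · rintro ⟨y₀, hy₀⟩
    rw [Fintype.card_eq_one_iff]
    refine ⟨Quotient.mk _ y₀, fun y => ?_⟩
    induction y using Quotient.inductionOn with
    | h y =>
      refine Quotient.sound ?_
      obtain ⟨σ, hσ⟩ := hy₀ y
      exact ⟨σ, hσ⟩
  · rintro ⟨y₀, y₁, hy, hall⟩
    have huniv : (Finset.univ : Finset (Quotient (MulAction.orbitRel G Y))) =
        {Quotient.mk _ y₀, Quotient.mk _ y₁} := by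
      refine (Finset.eq_univ_of_forall fun y => ?_).symm
      induction y using Quotient.inductionOn with
      | h y =>
        rw [Finset.mem_insert, Finset.mem_singleton]
        rcases hall y with ⟨σ, hσ⟩ | ⟨σ, hσ⟩
        · exact Or.inl (Quotient.sound ⟨σ, hσ⟩)
        · exact Or.inr (Quotient.sound ⟨σ, hσ⟩)
    rw [← Finset.card_univ, huniv, Finset.card_pair]
    intro h
    obtain ⟨σ, hσ⟩ := Quotient.exact h.symm
    exact hy σ hσ

/-- the diagonal action on a product -/
def prd {G Y Z : Type} [Group G] (a : G →* Equiv.Perm Y) (b : G →* Equiv.Perm Z) :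
    G →* Equiv.Perm (Y × Z) where
  toFun σ := Equiv.prodCongr (a σ) (b σ)
  map_one' := by ext x <;> simp
  map_mul' σ τ := by ext x <;> simp

theorem card_prd {G Y Z : Type} [Group G] (a : G →* Equiv.Perm Y) (b : G →* Equiv.Perm Z) (σ : G) :
    Nat.card {y : Y × Z // prd a b σ y = y} =
      Nat.card {y : Y // a σ y = y} * Nat.card {z : Z // b σ z = z} := by
  rw [← Nat.card_prod]
  refine Nat.card_congr ⟨fun y => (⟨y.1.1, congrArg Prod.fst y.2⟩, ⟨y.1.2, congrArg Prod.snd y.2⟩),
    fun y => ⟨(y.1.1, y.2.1), Prod.ext y.1.2 y.2.2⟩, fun y => rfl, fun y => rfl⟩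

theorem main : S_GRP := by
  classical
  intro G _ _ r g X _ a hg hX hsur hne
  have := Fintype.ofFinite G
  set n : ℤ := (Fintype.card G : ℤ) with hn
  have hnpos : 0 < n := by
    rw [hn]
    exact_mod_cast Fintype.card_pos
  set F : Fin r → G → ℤ := fun i σ => (Nat.card {x : X i // a i σ x = x} : ℤ) with hF
  have hnt : ∀ i, ∃ x x' : X i, x ≠ x' := by
    intro i
    have h1 : 1 < Nat.card (X i) := by
      rw [hX i]
      exact hg
    have := Finite.one_lt_card_iff_nontrivial.1 h1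
    exact exists_pair_ne (X i)
  have htr : ∀ i (x u : X i), ∃ σ, a i σ x = u := by
    intro i x u
    obtain ⟨σ, hσ⟩ := hsur i (Equiv.swap x u)
    exact ⟨σ, by rw [hσ, Equiv.swap_apply_left]⟩
  have h1 : ∀ i, ∑ σ, F i σ = n := by
    intro i
    obtain ⟨m, hm, -, hm1, -⟩ := burn (a i)
    obtain ⟨x, x', hxx⟩ := hnt i
    have := hm1 ⟨x, htr i x⟩
    rw [hF]
    simp only
    rw [hm, this, Nat.cast_one, one_mul]
  have h2 : ∀ i, ∑ σ, F i σ * F i σ = 2 * n := by
    intro i
    obtain ⟨m, hm, -, -, hm2⟩ := burn (prd (a i) (a i))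
    obtain ⟨x, x', hxx⟩ := hnt i
    have : m = 2 := by
      refine hm2 ⟨(x, x), (x, x'), ?_, ?_⟩
      · intro σ hσ
        have e1 : a i σ x = x := congrArg Prod.fst hσ
        have e2 : a i σ x = x' := congrArg Prod.snd hσ
        exact hxx (e1.symm.trans e2)
      · rintro ⟨u, v⟩
        by_cases huv : u = v
        · left
          obtain ⟨σ, hσ⟩ := htr i x u
          exact ⟨σ, Prod.ext hσ (hσ.trans huv)⟩
        · right
          obtain ⟨σ, hσ⟩ := hsur i (Equiv.swap (Equiv.swap x u x') v * Equiv.swap x u)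
          have hw : u ≠ Equiv.swap x u x' := by
            intro h
            have h' : Equiv.swap x u x = Equiv.swap x u x' := by
              rw [Equiv.swap_apply_left]
              exact h
            exact hxx ((Equiv.swap x u).injective h')
          refine ⟨σ, Prod.ext ?_ ?_⟩
          · change a i σ x = u
            rw [hσ, Equiv.Perm.mul_apply, Equiv.swap_apply_left, Equiv.swap_apply_of_ne_of_ne hw huv]
          · change a i σ x' = v
            rw [hσ, Equiv.Perm.mul_apply, Equiv.swap_apply_left]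
    rw [this] at hm
    rw [Nat.cast_ofNat] at hm
    rw [← hm]
    refine Finset.sum_congr rfl fun σ _ => ?_
    rw [card_prd]
    push_cast
    rfl
  have h3 : ∀ i j, ∃ m : ℕ, 1 ≤ m ∧ ∑ σ, F i σ * F j σ = m * n := by
    intro i j
    obtain ⟨m, hm, hm1, -, -⟩ := burn (prd (a i) (a j))
    obtain ⟨x, -, -⟩ := hnt i
    obtain ⟨y, -, -⟩ := hnt j
    refine ⟨m, hm1 ⟨(x, y)⟩, ?_⟩
    rw [← hm]
    refine Finset.sum_congr rfl fun σ _ => ?_
    rw [card_prd]
    push_cast
    rfl
  have h4 : ∀ i j, i ≠ j → ∑ σ, F i σ * F j σ = n := by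
    intro i j hij
    obtain ⟨m, hm, hmm⟩ := h3 i j
    obtain ⟨τ, hτ⟩ := hne i j hij
    have hpos : 0 < ∑ σ, (F i σ - F j σ) ^ 2 := by
      refine Finset.sum_pos' (fun σ _ => sq_nonneg _) ⟨τ, Finset.mem_univ _, ?_⟩
      have : F i τ - F j τ ≠ 0 := by
        intro h
        apply hτ
        exact Nat.cast_injective (R := ℤ) (sub_eq_zero.1 h)
      positivity
    have hexp : ∑ σ, (F i σ - F j σ) ^ 2 = (4 - 2 * m) * n := by
      have : ∀ σ, (F i σ - F j σ) ^ 2 = F i σ * F i σ + F j σ * F j σ - 2 * (F i σ * F j σ) :=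
        fun σ => by ring
      rw [Finset.sum_congr rfl fun σ _ => this σ, Finset.sum_sub_distrib, Finset.sum_add_distrib,
        ← Finset.mul_sum, h2, h2, hmm]
      ring
    rw [hexp] at hpos
    have hm2 : (m : ℤ) < 2 := by
      by_contra hcon
      have : (4 - 2 * (m : ℤ)) * n ≤ 0 := mul_nonpos_of_nonpos_of_nonneg (by linarith) hnpos.le
      linarith
    have : m = 1 := by
      have : m < 2 := by exact_mod_cast hm2
      omega
    rw [hmm, this, Nat.cast_one, one_mul]
  have h5 : ∑ σ : G, (∑ i, (F i σ - 1)) ^ 2 = r * n := by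
    have e1 : ∀ σ : G, (∑ i, (F i σ - 1)) ^ 2 = ∑ i, ∑ j, (F i σ - 1) * (F j σ - 1) := by
      intro σ
      rw [sq, Finset.sum_mul_sum]
    rw [Finset.sum_congr rfl fun σ _ => e1 σ, Finset.sum_comm]
    have e2 : ∀ i : Fin r, ∑ σ : G, ∑ j, (F i σ - 1) * (F j σ - 1) = n := by
      intro i
      rw [Finset.sum_comm]
      have e3 : ∀ j : Fin r, ∑ σ : G, (F i σ - 1) * (F j σ - 1) = if i = j then n else 0 := by
        intro j
        have e4 : ∀ σ : G, (F i σ - 1) * (F j σ - 1) = F i σ * F j σ - F i σ - F j σ + 1 :=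
          fun σ => by ring
        rw [Finset.sum_congr rfl fun σ _ => e4 σ, Finset.sum_add_distrib, Finset.sum_sub_distrib,
          Finset.sum_sub_distrib, h1, h1, Finset.sum_const, Finset.card_univ, nsmul_eq_mul, mul_one]
        split_ifs with h
        · rw [← h, h2]
          ring
        · rw [h4 i j h]
          ring
      rw [Finset.sum_congr rfl fun j _ => e3 j, Finset.sum_ite_eq, if_pos (Finset.mem_univ _)]
    rw [Finset.sum_congr rfl fun i _ => e2 i, Finset.sum_const, Finset.card_univ, Fintype.card_fin,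
      nsmul_eq_mul]
  have h6 : (r : ℤ) ^ 2 * Nat.card {σ : G // ∀ i, ∀ x : X i, a i σ x ≠ x} ≤ r * n := by
    rw [← h5, Nat.card_eq_fintype_card, Fintype.card_subtype, mul_comm, ← nsmul_eq_mul,
      ← Finset.sum_const]
    refine le_trans (Finset.sum_le_sum fun σ hσ => ?_)
      (Finset.sum_le_univ_sum_of_nonneg fun σ => sq_nonneg _)
    rw [Finset.mem_filter] at hσ
    have e1 : ∀ i, F i σ = 0 := by
      intro i
      rw [hF]
      simp only
      have : IsEmpty {x : X i // a i σ x = x} := ⟨fun x => hσ.2 i x.1 x.2⟩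
      rw [Nat.card_of_isEmpty, Nat.cast_zero]
    rw [Finset.sum_congr rfl fun i _ => by rw [e1 i]]
    simp
  have hr : (0 : ℤ) ≤ r := Int.natCast_nonneg r
  rcases Nat.eq_zero_or_pos r with h0 | h0
  · have : r * Nat.card {σ : G // ∀ i, ∀ x : X i, a i σ x ≠ x} = 0 := Nat.mul_eq_zero.2 (Or.inl h0)
    omega
  · have hr' : (0 : ℤ) < r := by exact_mod_cast h0
    have h7 : (r : ℤ) * (r * Nat.card {σ : G // ∀ i, ∀ x : X i, a i σ x ≠ x}) ≤ r * n := by
      rw [← mul_assoc, ← sq]
      exact h6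
    have h8 := le_of_mul_le_mul_left h7 hr'
    rw [hn, ← Nat.card_eq_fintype_card] at h8
    exact_mod_cast h8

end Pool.Agent.H47.PT.GRP
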