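import Pool.Agent.H47.PT.Stm

/-! # PT-IND (helper72): linear independence modulo almost all primes -/

set_option autoImplicit false

namespace Pool.Agent.H47.PT.IND

open Matrix

theorem main : S_IND := by
  intro I _ D₁ D₂ h
  -- a nonzero minor
  have hm : ∃ a b c d : I, D₁ a b * D₂ c d - D₁ c d * D₂ a b ≠ 0 := by
    by_contra hcon
    push Not at hcon
    have h1 : D₁ ≠ 0 := by
      intro h0
      have := (h 1 0 (by rw [h0]; simp)).1
      exact one_ne_zero this
    obtain ⟨a, b, hab⟩ : ∃ a b, D₁ a b ≠ 0 := by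
      by_contra hc
      push Not at hc
      exact h1 (by ext i j; exact hc i j)
    have h2 := h (D₂ a b) (-(D₁ a b)) (by
      ext c d
      have := hcon a b c d
      simp only [Matrix.add_apply, Matrix.smul_apply, smul_eq_mul, Matrix.zero_apply]
      linarith)
    exact hab (neg_eq_zero.mp h2.2)
  obtain ⟨a, b, c, d, hm⟩ := hm
  refine ⟨(D₁ a b * D₂ c d - D₁ c d * D₂ a b).natAbs, Int.natAbs_pos.mpr hm, ?_⟩
  intro p hp hpN x y hxy
  have : Fact p.Prime := ⟨hp⟩
  have hM : ((D₁ a b : ZMod p) * (D₂ c d : ZMod p) - (D₁ c d : ZMod p) * (D₂ a b : ZMod p)) ≠ 0 := by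
    intro h0
    apply hpN
    have h1 : (((D₁ a b * D₂ c d - D₁ c d * D₂ a b : ℤ)) : ZMod p) = 0 := by
      push_cast
      exact h0
    rw [ZMod.intCast_zmod_eq_zero_iff_dvd] at h1
    exact Int.natCast_dvd.mp h1
  have e1 : x * (D₁ a b : ZMod p) + y * (D₂ a b : ZMod p) = 0 := by
    have := congrFun (congrFun hxy a) b
    simpa using this
  have e2 : x * (D₁ c d : ZMod p) + y * (D₂ c d : ZMod p) = 0 := by
    have := congrFun (congrFun hxy c) d
    simpa using this
  constructor
  · have : x * ((D₁ a b : ZMod p) * (D₂ c d : ZMod p) - (D₁ c d : ZMod p) * (D₂ a b : ZMod p)) = 0 := by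
      linear_combination (D₂ c d : ZMod p) * e1 - (D₂ a b : ZMod p) * e2
    exact (mul_eq_zero.mp this).resolve_right hM
  · have : y * ((D₁ a b : ZMod p) * (D₂ c d : ZMod p) - (D₁ c d : ZMod p) * (D₂ a b : ZMod p)) = 0 := by
      linear_combination (D₁ a b : ZMod p) * e2 - (D₁ c d : ZMod p) * e1
    exact (mul_eq_zero.mp this).resolve_right hM

end Pool.Agent.H47.PT.IND
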