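import Pool.Agent.H47.PT.Stm

/-! # PT-KN: the kernel of a singular alternating matrix of even size -/

set_option autoImplicit false

namespace Pool.Agent.H47.PT.KN

open Module Matrix Pool.Agent.H47.PT

theorem skew {F : Type} [Field F] {V : Type} [AddCommGroup V] [Module F V]
    {β : V →ₗ[F] V →ₗ[F] F} (h : ∀ v, β v v = 0) (x y : V) : β x y = -β y x := by
  have h1 := h (x + y)
  simp only [map_add, LinearMap.add_apply, h, zero_add, add_zero] at h1
  exact eq_neg_of_add_eq_zero_right h1

/-- the dimension and the dimension of the kernel have the same parity -/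
theorem even_aux {F : Type} [Field F] : ∀ (n : ℕ) (V : Type) [AddCommGroup V] [Module F V]
    [FiniteDimensional F V] (β : V →ₗ[F] V →ₗ[F] F), (∀ v, β v v = 0) → finrank F V = n →
    Even (finrank F V + finrank F (LinearMap.ker β)) := by
  intro n
  induction n using Nat.strong_induction_on with
  | _ n ih =>
  intro V _ _ _ β hβ hn
  by_cases h0 : β = 0
  · rw [h0, LinearMap.ker_zero, finrank_top]
    exact ⟨_, rfl⟩
  obtain ⟨u, v, huv⟩ : ∃ u v, β u v ≠ 0 := by
    by_contra hcon
    push Not at hcon
    exact h0 (LinearMap.ext fun u => LinearMap.ext fun v => hcon u v)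
  set c := β u v with hc
  have hvu : β v u = -c := by rw [skew hβ]
  let φ : V →ₗ[F] F × F := (β u).prod (β v)
  have hφ : ∀ w, φ w = (β u w, β v w) := fun w => rfl
  have hsurj : LinearMap.range φ = ⊤ := by
    rw [LinearMap.range_eq_top]
    rintro ⟨s, t⟩
    refine ⟨(s / c) • v - (t / c) • u, ?_⟩
    rw [hφ, map_sub, map_sub, map_smul, map_smul, map_smul, map_smul, hβ u, hβ v, ← hc, hvu]
    simp only [smul_eq_mul, mul_zero, sub_zero, zero_sub, mul_neg, neg_neg]
    rw [div_mul_cancel₀ _ huv, div_mul_cancel₀ _ huv]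
  set W := LinearMap.ker φ with hW
  have hWm : ∀ w, w ∈ W ↔ β u w = 0 ∧ β v w = 0 := by
    intro w
    rw [hW, LinearMap.mem_ker, hφ, Prod.mk_eq_zero]
  have hdim : 2 + finrank F W = finrank F V := by
    have h1 := LinearMap.finrank_range_add_finrank_ker φ
    rw [hsurj, finrank_top, Module.finrank_prod, Module.finrank_self] at h1
    exact h1
  set γ : W →ₗ[F] W →ₗ[F] F := β.domRestrict₁₂ W W with hγ
  have hγa : ∀ x y : W, γ x y = β x.1 y.1 := fun x y => rfl
  have h1 := ih (finrank F W) (by omega) W γ (fun w => hβ w.1) rfl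
  have hker : (LinearMap.ker γ).map W.subtype = LinearMap.ker β := by
    ext x
    rw [Submodule.mem_map, LinearMap.mem_ker]
    constructor
    · rintro ⟨w, hw, rfl⟩
      rw [LinearMap.mem_ker] at hw
      have hw1 := (hWm w.1).1 w.2
      have e1 : β w.1 u = 0 := by rw [skew hβ, hw1.1, neg_zero]
      have e2 : β w.1 v = 0 := by rw [skew hβ, hw1.2, neg_zero]
      refine LinearMap.ext fun y => ?_
      have hy : y - (β u y / c) • v + (β v y / c) • u ∈ W := by
        rw [hWm]
        constructor
        · rw [map_add, map_sub, map_smul, map_smul, hβ u, ← hc, smul_eq_mul, smul_zero, add_zero,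
            div_mul_cancel₀ _ huv, sub_self]
        · rw [map_add, map_sub, map_smul, map_smul, hβ v, hvu, smul_zero, sub_zero, smul_eq_mul,
            mul_neg, div_mul_cancel₀ _ huv, add_neg_cancel]
      have h2 : γ w ⟨_, hy⟩ = 0 := by rw [hw]; rfl
      rw [hγa] at h2
      simp only [map_add, map_sub, map_smul, e1, e2, smul_zero, sub_zero, add_zero] at h2
      exact h2
    · intro hx
      have hxW : x ∈ W := by
        rw [hWm]
        constructor
        · rw [skew hβ, hx, LinearMap.zero_apply, neg_zero]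
        · rw [skew hβ, hx, LinearMap.zero_apply, neg_zero]
      refine ⟨⟨x, hxW⟩, ?_, rfl⟩
      rw [LinearMap.mem_ker]
      refine LinearMap.ext fun y => ?_
      rw [hγa]
      exact LinearMap.congr_fun hx y.1
  have h2 : finrank F (LinearMap.ker γ) = finrank F (LinearMap.ker β) := by
    rw [← hker]
    exact (Submodule.finrank_map_subtype_eq W _).symm
  rw [h2] at h1
  rw [← hdim, add_assoc]
  exact Even.add even_two h1

theorem alt_form {F : Type} [Field F] {I : Type} [Fintype I] {A : Matrix I I F} (hA : Al A)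
    (v : I → F) : v ⬝ᵥ (A *ᵥ v) = 0 := by
  classical
  have h1 : v ⬝ᵥ (A *ᵥ v) = ∑ q : I × I, v q.1 * A q.1 q.2 * v q.2 := by
    rw [Fintype.sum_prod_type]
    simp only [dotProduct, mulVec, Finset.mul_sum, mul_assoc]
  rw [h1]
  refine Finset.sum_involution (fun q _ => (q.2, q.1)) ?_ ?_ ?_ ?_
  · rintro ⟨i, j⟩ -
    simp only
    rw [hA.2 i j]
    ring
  · rintro ⟨i, j⟩ - hne heq
    apply hne
    have hij : j = i := (Prod.mk.inj heq).1
    simp only [hij, hA.1 i]
    ring
  · intro q _
    exact Finset.mem_univ _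
  · intro q _
    rfl

/-- the kernel is large -/
theorem ker_card {F : Type} [Field F] [Fintype F] {I : Type} [Fintype I] [DecidableEq I]
    {A : Matrix I I F} (hA : Al A) (hI : Even (Fintype.card I)) (hdet : A.det = 0) :
    Fintype.card F ^ 2 ≤ Nat.card {a : I → F // A *ᵥ a = 0} := by
  classical
  set β : (I → F) →ₗ[F] (I → F) →ₗ[F] F := Matrix.toLinearMap₂' F A with hβd
  have hβ : ∀ u w, β u w = u ⬝ᵥ (A *ᵥ w) := fun u w => Matrix.toLinearMap₂'_apply' A u w
  have hβ0 : ∀ v, β v v = 0 := fun v => by rw [hβ]; exact alt_form hA v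
  have h1 := even_aux _ (I → F) β hβ0 rfl
  rw [Module.finrank_fintype_fun_eq_card] at h1
  have h2 : Even (finrank F (LinearMap.ker β)) := (Nat.even_add.1 h1).1 hI
  have hmem : ∀ a : I → F, a ∈ LinearMap.ker β ↔ A *ᵥ a = 0 := by
    intro a
    rw [LinearMap.mem_ker]
    constructor
    · intro h
      have h3 : ∀ w, w ⬝ᵥ (A *ᵥ a) = 0 := by
        intro w
        rw [← hβ, skew hβ0, h, LinearMap.zero_apply, neg_zero]
      exact dotProduct_eq_zero _ fun w => by rw [dotProduct_comm]; exact h3 w
    · intro h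
      refine LinearMap.ext fun w => ?_
      rw [skew hβ0, hβ, h, dotProduct_zero, neg_zero]
      rfl
  have h3 : 1 ≤ finrank F (LinearMap.ker β) := by
    obtain ⟨v, hv, hv0⟩ := Matrix.exists_mulVec_eq_zero_iff.2 hdet
    have : Nontrivial (LinearMap.ker β) := ⟨⟨v, (hmem v).2 hv0⟩, 0, fun h => hv (congrArg Subtype.val h)⟩
    exact Module.finrank_pos
  have h4 : 2 ≤ finrank F (LinearMap.ker β) := by
    obtain ⟨t, ht⟩ := h2
    omega
  have h5 : Nat.card {a : I → F // A *ᵥ a = 0} = Nat.card (LinearMap.ker β) :=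
    Nat.card_congr (Equiv.subtypeEquivRight fun a => (hmem a).symm)
  rw [h5, Module.natCard_eq_pow_finrank (K := F), Nat.card_eq_fintype_card]
  exact Nat.pow_le_pow_right Fintype.card_pos h4

theorem main : S_KN := by
  classical
  intro F _ _ I _ _ D w hD hI
  have hAl : ∀ x : F, Al ((w - wᵀ) + x • D) := by
    intro x
    refine ⟨fun u => ?_, fun u v => ?_⟩
    · simp [hD.1 u]
    · simp only [Matrix.add_apply, Matrix.sub_apply, Matrix.transpose_apply, Matrix.smul_apply,
        smul_eq_mul]
      rw [hD.2 u v]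
      ring
  have hemb : ∀ x : {x : F // ((w - wᵀ) + x • D).det = 0},
      Nonempty (Fin (Fintype.card F ^ 2 - 1) ↪ {a : I → F // a ≠ 0 ∧ ((w - wᵀ) + x.1 • D) *ᵥ a = 0}) := by
    intro x
    apply Function.Embedding.nonempty_of_card_le
    rw [Fintype.card_fin]
    have h1 := ker_card (hAl x.1) hI x.2
    rw [Nat.card_eq_fintype_card] at h1
    have h2 : Fintype.card {a : I → F // ((w - wᵀ) + x.1 • D) *ᵥ a = 0} =
        Fintype.card {a : I → F // a ≠ 0 ∧ ((w - wᵀ) + x.1 • D) *ᵥ a = 0} + 1 := by
      rw [Fintype.card_subtype, Fintype.card_subtype]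
      have h3 : (Finset.univ.filter fun a : I → F => ((w - wᵀ) + x.1 • D) *ᵥ a = 0) =
          insert 0 (Finset.univ.filter fun a : I → F =>
            a ≠ 0 ∧ ((w - wᵀ) + x.1 • D) *ᵥ a = 0) := by
        ext a
        simp only [Finset.mem_filter, Finset.mem_univ, true_and, Finset.mem_insert]
        constructor
        · intro h
          by_cases ha : a = 0
          · exact Or.inl ha
          · exact Or.inr ⟨ha, h⟩
        · rintro (rfl | h)
          · exact mulVec_zero _
          · exact h.2
      rw [h3, Finset.card_insert_of_notMem (by simp)]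
    omega
  let e := fun x => (hemb x).some
  have hinj : Function.Injective (fun z : {x : F // ((w - wᵀ) + x • D).det = 0} ×
      Fin (Fintype.card F ^ 2 - 1) =>
      (⟨(z.1.1, (e z.1 z.2).1), (e z.1 z.2).2⟩ :
        {q : F × (I → F) // q.2 ≠ 0 ∧ ((w - wᵀ) + q.1 • D) *ᵥ q.2 = 0})) := by
    rintro ⟨x, s⟩ ⟨x', s'⟩ h
    have h1 := congrArg Subtype.val h
    simp only [Prod.mk.injEq] at h1
    obtain ⟨h2, h3⟩ := h1
    have hx : x = x' := Subtype.ext h2
    subst hx
    have : s = s' := (e x).injective (Subtype.ext h3)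
    rw [this]
  have h := Nat.card_le_card_of_injective _ hinj
  rw [Nat.card_prod, Nat.card_eq_fintype_card (α := Fin _), Fintype.card_fin, mul_comm] at h
  exact h

end Pool.Agent.H47.PT.KN
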