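import Pool.Agent.H47.PT.Stm

/-! # PT-LIFT: the roots in the splitting field and in a larger Galois extension -/

set_option autoImplicit false

namespace Pool.Agent.H47.PT.LIFT

open Matrix Polynomial NumberField Filter Topology Pool.Agent.W401.Cheb Pool.Agent.H47.PD
open Pool.Agent.H47.PT

theorem main : S_LIFT := by
  intro h L₀ _ _ _ L _ _ _ hh hSpl hIn
  have : IsSplittingField ℚ L₀ (h.map (Int.castRingHom ℚ)) := hSpl
  have hIn' : ((h.map (Int.castRingHom ℚ)).map (algebraMap ℚ L)).Splits := by
    rw [Polynomial.map_map]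
    have : (algebraMap ℚ L).comp (Int.castRingHom ℚ) = Int.castRingHom L := RingHom.ext_int _ _
    rw [this]
    exact hIn
  let i : L₀ →ₐ[ℚ] L := IsSplittingField.lift L₀ (h.map (Int.castRingHom ℚ)) hIn'
  have hq0 : h.map (Int.castRingHom ℚ) ≠ 0 := by
    rw [Ne, Polynomial.map_eq_zero_iff (RingHom.injective_int _)]
    exact hh
  have hroot : ∀ (K : Type) [Field K] [NumberField K] (x : K),
      aeval x (h.map (Int.castRingHom ℚ)) = aeval x h := by
    intro K _ _ x
    have := Polynomial.aeval_map_algebraMap ℚ x h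
    simpa using this
  have himg := Polynomial.Splits.image_rootSet (IsSplittingField.splits L₀ (h.map (Int.castRingHom ℚ))) i
  have hmem : ∀ r : Rt h L₀, aeval (i r.1) h = 0 := by
    intro r
    rw [← hroot L, Polynomial.aeval_algHom_apply, hroot L₀, r.2, map_zero]
  let e : Rt h L₀ ≃ Rt h L := Equiv.ofBijective (fun r => ⟨i r.1, hmem r⟩) (by
    constructor
    · intro r s hrs
      apply Subtype.ext
      exact i.injective (Subtype.ext_iff.1 hrs)
    · intro s
      have hs : s.1 ∈ (h.map (Int.castRingHom ℚ)).rootSet L := by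
        rw [Polynomial.mem_rootSet]
        exact ⟨hq0, by rw [hroot L]; exact s.2⟩
      rw [← himg] at hs
      obtain ⟨x, hx, hxs⟩ := hs
      rw [Polynomial.mem_rootSet] at hx
      exact ⟨⟨x, by rw [← hroot L₀]; exact hx.2⟩, Subtype.ext hxs⟩)
  refine ⟨e, fun τ => ?_⟩
  let _ : Algebra L₀ L := i.toRingHom.toAlgebra
  have : IsScalarTower ℚ L₀ L := IsScalarTower.of_algebraMap_eq' (RingHom.ext fun x =>
    (i.commutes x).symm)
  refine ⟨τ.liftNormal L, fun r => ?_⟩
  apply Subtype.ext
  exact AlgEquiv.liftNormal_commutes τ L r.1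

end Pool.Agent.H47.PT.LIFT
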