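import Pool.Agent.H47.PT.Stm
import Pool.Agent.H47.L.R_pool_sql_team_seeded_2aa45f1a.Q128.PI.Two

/-! PT-MOM2 (helper33): the mixed second moment -/

set_option autoImplicit false

namespace Pool.Agent.H47.PT.MOM2

open Matrix Pool.Agent.Q128.PI

theorem main : S_MOM2 := by
  intro F _ _ I _ _ D₁ D₂ hD₁ hD₂ hind
  classical
  rw [finsum_eq_sum_of_fintype, Nat.card_eq_fintype_card]
  have hA1 : AltM D₁ := hD₁
  have hA2 : AltM D₂ := hD₂
  set q := Fintype.card F with hq
  set n := Fintype.card (I → F) with hn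
  set M := Fintype.card (Matrix I I F) with hM
  have hn0 : 0 < n := Fintype.card_pos
  obtain ⟨A0, hA0def⟩ : ∃ A0 : Finset (I → F), A0 = Finset.univ.filter fun a => a ≠ 0 := ⟨_, rfl⟩
  have hA0 : A0.card ≤ n := Finset.card_le_univ _
  have hkr : ∀ (D w : Matrix I I F),
      kr D w = ∑ x : F, ∑ a ∈ A0, if Ev (x • D) a w then 1 else 0 := by
    intro D w
    unfold kr
    rw [Nat.card_eq_fintype_card, Fintype.card_subtype, Finset.card_filter,
      ← Finset.univ_product_univ, Finset.sum_product]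
    refine Finset.sum_congr rfl fun x _ => ?_
    rw [hA0def, Finset.sum_filter]
    refine Finset.sum_congr rfl fun a _ => ?_
    by_cases ha : a ≠ 0
    · simp [ha, Ev, al]
    · simp [ha]
  have hswap : ∑ w : Matrix I I F, kr D₁ w * kr D₂ w =
      ∑ c : F × F, ∑ a ∈ A0, ∑ b ∈ A0,
        (Finset.univ.filter fun w => Ev (c.1 • D₁) a w ∧ Ev (c.2 • D₂) b w).card := by
    have h1 : ∀ w : Matrix I I F, kr D₁ w * kr D₂ w = ∑ c : F × F, ∑ a ∈ A0, ∑ b ∈ A0,
        if Ev (c.1 • D₁) a w ∧ Ev (c.2 • D₂) b w then 1 else 0 := by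
      intro w
      rw [hkr, hkr, Finset.sum_mul_sum, ← Finset.univ_product_univ, Finset.sum_product]
      refine Finset.sum_congr rfl fun x _ => Finset.sum_congr rfl fun y _ => ?_
      rw [Finset.sum_mul_sum]
      refine Finset.sum_congr rfl fun a _ => Finset.sum_congr rfl fun b _ => ?_
      by_cases h : Ev (x • D₁) a w
      · by_cases h' : Ev (y • D₂) b w
        · rw [if_pos h, if_pos h']
          exact (if_pos (show Ev (x • D₁) a w ∧ Ev (y • D₂) b w from ⟨h, h'⟩)).symm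
        · rw [if_neg h', mul_zero]
          exact (if_neg (fun h2 : Ev (x • D₁) a w ∧ Ev (y • D₂) b w => h' h2.2)).symm
      · rw [if_neg h, zero_mul]
        exact (if_neg (fun h2 : Ev (x • D₁) a w ∧ Ev (y • D₂) b w => h h2.1)).symm
    rw [Finset.sum_congr rfl fun w _ => h1 w, Finset.sum_comm]
    refine Finset.sum_congr rfl fun c _ => ?_
    rw [Finset.sum_comm]
    refine Finset.sum_congr rfl fun a _ => ?_
    rw [Finset.sum_comm]
    refine Finset.sum_congr rfl fun b _ => ?_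
    rw [Finset.card_filter]
  -- the general bound for a fixed first vector
  have hE : ∀ (x y : F) (a : I → F), a ∈ A0 →
      ∑ b ∈ A0, (Finset.univ.filter fun w => Ev (x • D₁) a w ∧ Ev (y • D₂) b w).card * n ^ 2 ≤
        (q ^ 3 + q ^ 2) * n * M := by
    intro x y a ha
    rw [hA0def, Finset.mem_filter] at ha
    have h1 := sum_pairs_all (x • D₁) (y • D₂) (hA1.smul x) a ha.2
    rw [← hA0def, ← hq, ← hn, ← hM] at h1
    refine h1.trans ?_
    have h2 : q ^ 3 * M * (n - 1) ≤ q ^ 3 * M * n := Nat.mul_le_mul_left _ (Nat.sub_le _ _)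
    have h3 : q * n * M * (q - 1) ≤ q * n * M * q := Nat.mul_le_mul_left _ (Nat.sub_le _ _)
    calc _ ≤ q ^ 3 * M * n + q * n * M * q := Nat.add_le_add h2 h3
      _ = _ := by ring
  have hpair : ∀ c : F × F, c ≠ 0 →
      ∑ a ∈ A0, ∑ b ∈ A0,
        (Finset.univ.filter fun w => Ev (c.1 • D₁) a w ∧ Ev (c.2 • D₂) b w).card * n ^ 2 ≤
        (q ^ 2 + q + 1) * n ^ 2 * M := by
    rintro ⟨x, y⟩ hc
    have hne : y • D₂ - x • D₁ ≠ 0 := by
      intro h0
      have h1 : (-x) • D₁ + y • D₂ = 0 := by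
        rw [← h0, neg_smul]; abel
      obtain ⟨a1, a2⟩ := hind _ _ h1
      apply hc
      rw [neg_eq_zero] at a1
      rw [a1, a2]; rfl
    have hAs : AltM (y • D₂ - x • D₁) := (hA2.smul y).sub (hA1.smul x)
    rw [← Finset.sum_filter_add_sum_filter_not A0 (fun a => (y • D₂ - x • D₁) *ᵥ a ≠ 0)]
    have p1 : ∑ a ∈ A0.filter (fun a => (y • D₂ - x • D₁) *ᵥ a ≠ 0), ∑ b ∈ A0,
        (Finset.univ.filter fun w => Ev (x • D₁) a w ∧ Ev (y • D₂) b w).card * n ^ 2 ≤
        n * (q ^ 2 * n * M) := by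
      calc _ ≤ ∑ a ∈ A0.filter (fun a => (y • D₂ - x • D₁) *ᵥ a ≠ 0), q ^ 2 * n * M := by
            refine Finset.sum_le_sum fun a ha => ?_
            rw [hA0def]
            exact sum_pairs_ne (x • D₁) (y • D₂) (hA1.smul x) hAs a (Finset.mem_filter.1 ha).2
        _ ≤ _ := by
            rw [Finset.sum_const, smul_eq_mul]
            exact Nat.mul_le_mul_right _ ((Finset.card_le_card (Finset.filter_subset _ _)).trans hA0)
    have p2 : ∑ a ∈ A0.filter (fun a => ¬ (y • D₂ - x • D₁) *ᵥ a ≠ 0), ∑ b ∈ A0,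
        (Finset.univ.filter fun w => Ev (x • D₁) a w ∧ Ev (y • D₂) b w).card * n ^ 2 ≤
        (q + 1) * n * (n * M) := by
      calc _ ≤ ∑ a ∈ A0.filter (fun a => ¬ (y • D₂ - x • D₁) *ᵥ a ≠ 0),
              (q ^ 3 + q ^ 2) * n * M := by
            refine Finset.sum_le_sum fun a ha => ?_
            exact hE x y a (Finset.mem_filter.1 ha).1
        _ = (A0.filter (fun a => ¬ (y • D₂ - x • D₁) *ᵥ a ≠ 0)).card * q ^ 2 * ((q + 1) * (n * M)) := by
            rw [Finset.sum_const, smul_eq_mul]; ring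
        _ ≤ n * ((q + 1) * (n * M)) := by
            refine Nat.mul_le_mul_right _ ?_
            refine le_trans (Nat.mul_le_mul_right _ (Finset.card_le_card ?_))
              (card_ker_le (y • D₂ - x • D₁) hAs hne)
            intro a ha
            rw [Finset.mem_filter] at ha ⊢
            exact ⟨Finset.mem_univ _, not_not.1 ha.2⟩
        _ = _ := by ring
    calc _ ≤ n * (q ^ 2 * n * M) + (q + 1) * n * (n * M) := Nat.add_le_add p1 p2
      _ = _ := by ring
  have hzero : ∑ a ∈ A0, ∑ b ∈ A0,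
        (Finset.univ.filter fun w => Ev ((0 : F × F).1 • D₁) a w ∧
          Ev ((0 : F × F).2 • D₂) b w).card * n ^ 2 ≤ (q ^ 3 + q ^ 2) * n ^ 2 * M := by
    calc _ ≤ ∑ a ∈ A0, (q ^ 3 + q ^ 2) * n * M := Finset.sum_le_sum fun a ha => hE _ _ a ha
      _ = A0.card * ((q ^ 3 + q ^ 2) * n * M) := by rw [Finset.sum_const, smul_eq_mul]
      _ ≤ n * ((q ^ 3 + q ^ 2) * n * M) := Nat.mul_le_mul_right _ hA0
      _ = _ := by ring
  refine le_of_mul_le_mul_right (a := n ^ 2) ?_ (pow_pos hn0 2)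
  rw [hswap, Finset.sum_mul]
  have e1 : ∀ c : F × F, (∑ a ∈ A0, ∑ b ∈ A0,
        (Finset.univ.filter fun w => Ev (c.1 • D₁) a w ∧ Ev (c.2 • D₂) b w).card) * n ^ 2 =
      ∑ a ∈ A0, ∑ b ∈ A0,
        (Finset.univ.filter fun w => Ev (c.1 • D₁) a w ∧ Ev (c.2 • D₂) b w).card * n ^ 2 := by
    intro c
    rw [Finset.sum_mul]
    exact Finset.sum_congr rfl fun a _ => Finset.sum_mul _ _ _
  rw [Finset.sum_congr rfl fun c _ => e1 c, ← Finset.add_sum_erase _ _ (Finset.mem_univ (0 : F × F))]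
  calc _ ≤ (q ^ 3 + q ^ 2) * n ^ 2 * M +
        ∑ c ∈ (Finset.univ : Finset (F × F)).erase 0, (q ^ 2 + q + 1) * n ^ 2 * M :=
        Nat.add_le_add hzero (Finset.sum_le_sum fun c hc => hpair c (Finset.ne_of_mem_erase hc))
    _ ≤ (q ^ 3 + q ^ 2) * n ^ 2 * M + q ^ 2 * ((q ^ 2 + q + 1) * n ^ 2 * M) := by
        refine Nat.add_le_add_left ?_ _
        rw [Finset.sum_const, smul_eq_mul]
        refine Nat.mul_le_mul_right _ ?_
        refine (Finset.card_le_card (Finset.erase_subset _ _)).trans ?_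
        rw [Finset.card_univ, Fintype.card_prod, sq]
    _ = _ := by ring

end Pool.Agent.H47.PT.MOM2
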