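import Pool.Agent.H47.PT.Stm

/-! Project PT: stub NRG -/

set_option autoImplicit false

namespace Pool.Agent.H47.PT.T.NRG

open Matrix Polynomial Pool.Agent.H47.PT

theorem eval_det {F : Type} [Field F] {I : Type} [Fintype I] [DecidableEq I] (A D : Matrix I I F)
    (x : F) : ((A.map C + (X : F[X]) • D.map C).det).eval x = (A + x • D).det := by
  have h1 : ((A.map C + (X : F[X]) • D.map C).det).eval x =
      (evalRingHom x) ((A.map C + (X : F[X]) • D.map C).det) := rfl
  rw [h1, RingHom.map_det]
  congr 1
  ext i j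
  have h2 : (evalRingHom x).mapMatrix (A.map C + (X : F[X]) • D.map C) i j =
      A i j + x * D i j := by
    simp only [RingHom.mapMatrix_apply, Matrix.map_apply, Matrix.add_apply, Matrix.smul_apply,
      smul_eq_mul, map_add, coe_evalRingHom, eval_C, eval_mul, eval_X]
  rw [h2, Matrix.add_apply, Matrix.smul_apply, smul_eq_mul]

theorem main : S_NRG := by
  intro F _ _ I _ _ D w g hI hG
  classical
  obtain ⟨c, f, hc, hf, hdet⟩ := hG
  have hf0 : f ≠ 0 := hf.ne_zero
  have hdeg : (((w - wᵀ).map C + (X : F[X]) • D.map C).det).natDegree ≤ 2 * g := by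
    have h1 := natDegree_det_X_add_C_le D (w - wᵀ)
    rw [add_comm, hI] at h1
    exact h1
  rw [hdet, natDegree_C_mul hc, natDegree_pow] at hdeg
  have hroot : ∀ x : F, ((w - wᵀ) + x • D).det = 0 → x ∈ f.roots.toFinset := by
    intro x hx
    rw [← eval_det, hdet, eval_mul, eval_C, eval_pow] at hx
    rw [Multiset.mem_toFinset, mem_roots hf0, IsRoot.def]
    have h1 := (mul_eq_zero.1 hx).resolve_left hc
    exact pow_eq_zero_iff (two_ne_zero) |>.1 h1
  unfold nr
  calc Nat.card {x : F // ((w - wᵀ) + x • D).det = 0}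
      ≤ Nat.card {x : F // x ∈ f.roots.toFinset} := by
        apply Nat.card_le_card_of_injective (fun x => (⟨x.1, hroot x.1 x.2⟩ :
          {x : F // x ∈ f.roots.toFinset}))
        intro a b h
        exact Subtype.ext (congrArg (fun z : {x : F // x ∈ f.roots.toFinset} => z.1) h)
    _ = f.roots.toFinset.card := by
        rw [Nat.card_eq_fintype_card, Fintype.card_coe]
    _ ≤ Multiset.card f.roots := Multiset.toFinset_card_le _
    _ ≤ f.natDegree := card_roots' f
    _ ≤ g := by omega

end Pool.Agent.H47.PT.T.NRG
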