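import Pool.Agent.H47.PT.Stm
import Pool.Agent.H47.PF.T.NOROOT

/-! # PT-NSQ: the sum of the squares of the numbers of zeros of the monic polynomials -/

set_option autoImplicit false

namespace Pool.Agent.H47.PT.NSQ

open Matrix Polynomial Pool.Agent.H47.PF

theorem main : S_NSQ := by
  intro F _ _ g hg
  classical
  set Z : (Fin g → F) → Finset F := fun c =>
    Finset.univ.filter fun x : F => x ^ g + ∑ j : Fin g, c j * x ^ (j : ℕ) = 0 with hZ
  have h0 : ∀ c : Fin g → F, Nat.card {x : F // x ^ g + ∑ j : Fin g, c j * x ^ (j : ℕ) = 0} =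
      (Z c).card := by
    intro c
    rw [Nat.card_eq_fintype_card, Fintype.card_subtype]
  have h1 := Finset.sum_card_bipartiteAbove_eq_sum_card_bipartiteBelow
    (s := (Finset.univ : Finset (Fin g → F))) (t := (Finset.univ : Finset (F × F)))
    (fun c p => p.1 ∈ Z c ∧ p.2 ∈ Z c)
  have h2 : ∀ c ∈ (Finset.univ : Finset (Fin g → F)),
      ((Finset.univ : Finset (F × F)).bipartiteAbove (fun c p => p.1 ∈ Z c ∧ p.2 ∈ Z c) c).card =
        (Z c).card ^ 2 := by
    intro c _
    have h3 : (Finset.univ : Finset (F × F)).bipartiteAbove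
        (fun c p => p.1 ∈ Z c ∧ p.2 ∈ Z c) c = Z c ×ˢ Z c := by
      ext p
      rw [Finset.mem_bipartiteAbove, Finset.mem_product]
      simp
    rw [h3, Finset.card_product, sq]
  have h4 : ∀ p ∈ (Finset.univ : Finset (F × F)),
      ((Finset.univ : Finset (Fin g → F)).bipartiteBelow
        (fun c p => p.1 ∈ Z c ∧ p.2 ∈ Z c) p).card =
        if p.1 = p.2 then Fintype.card F ^ (g - 1) else Fintype.card F ^ (g - 2) := by
    intro p _
    have h5 : (Finset.univ : Finset (Fin g → F)).bipartiteBelow
        (fun c p => p.1 ∈ Z c ∧ p.2 ∈ Z c) p =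
        Finset.univ.filter fun c : Fin g → F =>
          ∀ x ∈ ({p.1, p.2} : Finset F), x ^ g + ∑ j : Fin g, c j * x ^ (j : ℕ) = 0 := by
      ext c
      rw [Finset.mem_bipartiteBelow, Finset.mem_filter]
      simp only [Finset.mem_univ, true_and, hZ, Finset.mem_filter, Finset.mem_insert,
        Finset.mem_singleton, forall_eq_or_imp, forall_eq]
    rw [h5, NOROOT.count g {p.1, p.2}]
    split_ifs with ha hb hb
    · rw [hb, Finset.pair_eq_singleton, Finset.card_singleton]
    · rw [Finset.card_pair hb]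
    · exfalso
      apply ha
      rw [hb, Finset.pair_eq_singleton, Finset.card_singleton]
      omega
    · exfalso
      apply ha
      rw [Finset.card_pair hb]
      exact hg
  rw [Finset.sum_congr rfl h2, Finset.sum_congr rfl h4] at h1
  simp only [h0]
  rw [h1, Fintype.sum_prod_type]
  have h6 : ∀ x : F, (∑ y : F, if x = y then Fintype.card F ^ (g - 1) else
      Fintype.card F ^ (g - 2)) =
      Fintype.card F ^ (g - 1) + (Fintype.card F - 1) * Fintype.card F ^ (g - 2) := by
    intro x
    rw [← Finset.add_sum_erase _ _ (Finset.mem_univ x), if_pos rfl]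
    congr 1
    rw [Finset.sum_congr rfl fun y hy => if_neg (Finset.ne_of_mem_erase hy).symm,
      Finset.sum_const, Finset.card_erase_of_mem (Finset.mem_univ x), Finset.card_univ,
      smul_eq_mul]
  rw [Finset.sum_congr rfl fun x _ => h6 x, Finset.sum_const, Finset.card_univ, smul_eq_mul]
  obtain ⟨k, rfl⟩ : ∃ k, g = k + 2 := ⟨g - 2, by omega⟩
  obtain ⟨s, hs⟩ : ∃ s, Fintype.card F = s + 1 := ⟨Fintype.card F - 1, by
    have := Fintype.card_pos (α := F)
    omega⟩
  rw [hs, show k + 2 - 1 = k + 1 from rfl, show k + 2 - 2 = k from rfl, Nat.add_sub_cancel]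
  ring

end Pool.Agent.H47.PT.NSQ
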