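import Pool.Agent.H47.PT.Stm

/-!
# The Pfaffian polynomials of two pencils are different for a positive proportion of all matrices
-/

set_option autoImplicit false

namespace Pool.Agent.H47.PT.PAIR

open Matrix Polynomial Finset Pool.Agent.H47.PT

lemma half {α : Type} [Fintype α] (P Q : α → Prop) [DecidablePred P] [DecidablePred Q] (n : α → ℕ)
    (g : ℕ) (σ δ M : ℝ) (hP : ∀ w, P w → n w ≤ g)
    (b : ((univ.filter fun w => ¬ Q w).card : ℝ) ≤ δ * M)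
    (m : σ * M ≤ ∑ w with P w, (n w : ℝ) ^ 2) :
    (σ - (g : ℝ) ^ 2 * δ) * M ≤ ∑ w with (P w ∧ Q w), (n w : ℝ) ^ 2 := by
  have h1 : ∑ w with P w, (n w : ℝ) ^ 2 = (∑ w with (P w ∧ Q w), (n w : ℝ) ^ 2) +
      ∑ w with (P w ∧ ¬ Q w), (n w : ℝ) ^ 2 := by
    rw [← Finset.sum_filter_add_sum_filter_not (univ.filter P) Q, Finset.filter_filter,
      Finset.filter_filter]
  have h2 : ∑ w with (P w ∧ ¬ Q w), (n w : ℝ) ^ 2 ≤ ((univ.filter fun w => ¬ Q w).card : ℝ) * (g : ℝ) ^ 2 := by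
    calc ∑ w with (P w ∧ ¬ Q w), (n w : ℝ) ^ 2
        ≤ ∑ w with (P w ∧ ¬ Q w), (g : ℝ) ^ 2 := by
          refine Finset.sum_le_sum fun w hw => ?_
          have := hP w (Finset.mem_filter.1 hw).2.1
          have h' : (n w : ℝ) ≤ g := by exact_mod_cast this
          exact pow_le_pow_left₀ (by positivity) h' 2
      _ = ((univ.filter fun w => P w ∧ ¬ Q w).card : ℝ) * (g : ℝ) ^ 2 := by
          rw [Finset.sum_const, nsmul_eq_mul]
      _ ≤ _ := by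
          refine mul_le_mul_of_nonneg_right ?_ (by positivity)
          exact_mod_cast Finset.card_le_card fun w hw => by
            simp only [Finset.mem_filter, Finset.mem_univ, true_and] at hw ⊢
            exact hw.2
  have h3 : ((univ.filter fun w => ¬ Q w).card : ℝ) * (g : ℝ) ^ 2 ≤ δ * M * (g : ℝ) ^ 2 :=
    mul_le_mul_of_nonneg_right b (by positivity)
  nlinarith

lemma comb {α : Type} [Fintype α] (P Q : α → Prop) [DecidablePred P] [DecidablePred Q] (n₁ n₂ : α → ℕ)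
    (g : ℕ) (σ δ τ M : ℝ) (hP : ∀ w, P w → n₁ w ≤ g) (hQ : ∀ w, Q w → n₂ w ≤ g)
    (b₁ : ((univ.filter fun w => ¬ P w).card : ℝ) ≤ δ * M)
    (b₂ : ((univ.filter fun w => ¬ Q w).card : ℝ) ≤ δ * M)
    (m₁ : σ * M ≤ ∑ w with P w, (n₁ w : ℝ) ^ 2) (m₂ : σ * M ≤ ∑ w with Q w, (n₂ w : ℝ) ^ 2)
    (mm : ∑ w, (n₁ w : ℝ) * n₂ w ≤ τ * M) :
    (2 * σ - 2 * (g : ℝ) ^ 2 * δ - 2 * τ) * M ≤
      (g : ℝ) ^ 2 * ((univ.filter fun w => P w ∧ Q w ∧ n₁ w ≠ n₂ w).card : ℝ) := by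
  have h1 := half P Q n₁ g σ δ M hP b₂ m₁
  have h2 := half Q P n₂ g σ δ M hQ b₁ m₂
  have h2' : ∑ w with (Q w ∧ P w), (n₂ w : ℝ) ^ 2 = ∑ w with (P w ∧ Q w), (n₂ w : ℝ) ^ 2 := by
    refine Finset.sum_congr ?_ fun _ _ => rfl
    ext w
    simp only [Finset.mem_filter, Finset.mem_univ, true_and]
    exact and_comm
  rw [h2'] at h2
  have h3 : ∑ w with (P w ∧ Q w), (n₁ w : ℝ) * n₂ w ≤ τ * M :=
    (Finset.sum_le_sum_of_subset_of_nonneg (Finset.filter_subset _ _)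
      fun _ _ _ => by positivity).trans mm
  have h4 : ∑ w with (P w ∧ Q w), ((n₁ w : ℝ) - n₂ w) ^ 2 =
      (∑ w with (P w ∧ Q w), (n₁ w : ℝ) ^ 2) + (∑ w with (P w ∧ Q w), (n₂ w : ℝ) ^ 2) -
        2 * ∑ w with (P w ∧ Q w), (n₁ w : ℝ) * n₂ w := by
    rw [Finset.mul_sum, ← Finset.sum_add_distrib, ← Finset.sum_sub_distrib]
    exact Finset.sum_congr rfl fun w _ => by ring
  have h5 : ∑ w with (P w ∧ Q w), ((n₁ w : ℝ) - n₂ w) ^ 2 ≤
      (g : ℝ) ^ 2 * ((univ.filter fun w => P w ∧ Q w ∧ n₁ w ≠ n₂ w).card : ℝ) := by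
    have h6 : ∑ w with (P w ∧ Q w ∧ n₁ w ≠ n₂ w), ((n₁ w : ℝ) - n₂ w) ^ 2 =
        ∑ w with (P w ∧ Q w), ((n₁ w : ℝ) - n₂ w) ^ 2 := by
      refine Finset.sum_subset ?_ ?_
      · intro w hw
        simp only [Finset.mem_filter, Finset.mem_univ, true_and] at hw ⊢
        exact ⟨hw.1, hw.2.1⟩
      · intro w hw hw'
        simp only [Finset.mem_filter, Finset.mem_univ, true_and] at hw hw'
        have : n₁ w = n₂ w := by
          by_contra hne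
          exact hw' ⟨hw.1, hw.2, hne⟩
        rw [this]; ring
    rw [← h6]
    calc ∑ w with (P w ∧ Q w ∧ n₁ w ≠ n₂ w), ((n₁ w : ℝ) - n₂ w) ^ 2
        ≤ ∑ w with (P w ∧ Q w ∧ n₁ w ≠ n₂ w), (g : ℝ) ^ 2 := by
          refine Finset.sum_le_sum fun w hw => ?_
          simp only [Finset.mem_filter, Finset.mem_univ, true_and] at hw
          have i1 : (n₁ w : ℝ) ≤ g := by exact_mod_cast hP w hw.1
          have i2 : (n₂ w : ℝ) ≤ g := by exact_mod_cast hQ w hw.2.1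
          have i3 : (0 : ℝ) ≤ n₁ w := by positivity
          have i4 : (0 : ℝ) ≤ n₂ w := by positivity
          exact sq_le_sq' (by linarith) (by linarith)
      _ = _ := by rw [Finset.sum_const, nsmul_eq_mul, mul_comm]
  rw [h4] at h5
  nlinarith

theorem main (hB : S_BAD) (hM1 : S_MOM1) (hM2 : S_MOM2) (hKN : S_KN) (hN : S_NRG) : S_PAIR := by
  intro g hg
  obtain ⟨K₁, hK₁, h1⟩ := hB g (by omega)
  obtain ⟨K₂, hK₂, h2⟩ := hM1 g hg
  have hg0 : (0 : ℝ) < g := by exact_mod_cast (by omega : 0 < g)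
  refine ⟨1 / (g : ℝ) ^ 2, by positivity, ⌈2 * K₂ + 2 * (g : ℝ) ^ 2 * K₁ + 8⌉₊, ?_⟩
  intro F _ _ I _ _ D₁ D₂ hq hI hA1 hA2 hd1 hd2 hind
  classical
  obtain ⟨q, hqd⟩ : ∃ q : ℝ, q = (Fintype.card F : ℝ) := ⟨_, rfl⟩
  have hq1 : 2 * K₂ + 2 * (g : ℝ) ^ 2 * K₁ + 8 ≤ q := by
    rw [hqd]
    exact (Nat.le_ceil _).trans (by exact_mod_cast hq)
  have hq8 : 8 ≤ q := by
    have : 0 ≤ 2 * K₂ + 2 * (g : ℝ) ^ 2 * K₁ := by positivity
    linarith
  have hq0 : 0 < q := by linarith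
  obtain ⟨M, hMd⟩ : ∃ M : ℝ, M = (Nat.card (Matrix I I F) : ℝ) := ⟨_, rfl⟩
  have hM0 : 0 ≤ M := by rw [hMd]; positivity
  have e1 := h1 F I D₁ hI hA1 hd1
  have e2 := h1 F I D₂ hI hA2 hd2
  have f1 := h2 F I D₁ hI hA1 hd1
  have f2 := h2 F I D₂ hI hA2 hd2
  have m := hM2 F I D₁ D₂ hA1 hA2 hind
  rw [← hqd, ← hMd] at e1 e2 f1 f2
  have cv : ∀ D : Matrix I I F, (∑ᶠ w : {w : Matrix I I F // Gd D w}, (nr D w.1 : ℝ) ^ 2) =
      ∑ w : Matrix I I F with Gd D w, (nr D w : ℝ) ^ 2 := by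
    intro D
    rw [finsum_eq_sum_of_fintype]
    exact (Finset.sum_subtype (univ.filter fun w => Gd D w) (by simp)
      (fun w => (nr D w : ℝ) ^ 2)).symm
  rw [cv] at f1 f2
  rw [Nat.card_eq_fintype_card, Fintype.card_subtype] at e1 e2
  have hN' : ∀ D w, Gd D w → nr D w ≤ g := fun D w hw => hN F I D w g hI hw
  have hev : Even (Fintype.card I) := ⟨g, by omega⟩
  -- the mixed moment
  have mm : ∑ w : Matrix I I F, (nr D₁ w : ℝ) * nr D₂ w ≤ (1 + 4 / q) * M := by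
    rw [finsum_eq_sum_of_fintype] at m
    have m' : (∑ w : Matrix I I F, (kr D₁ w : ℝ) * kr D₂ w) ≤ (q ^ 4 + 2 * q ^ 3 + 2 * q ^ 2) * M := by
      rw [hqd, hMd]; exact_mod_cast m
    have hkn : ∀ D w : Matrix I I F, Al D → (q ^ 2 - 1) * (nr D w : ℝ) ≤ kr D w := by
      intro D w hD
      have h := hKN F I D w hD hev
      have h1' : 1 ≤ Fintype.card F ^ 2 := Nat.one_le_pow _ _ Fintype.card_pos
      have h' : (((Fintype.card F ^ 2 - 1 : ℕ) : ℝ)) * (nr D w : ℝ) ≤ kr D w := by exact_mod_cast h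
      rw [Nat.cast_sub h1'] at h'
      rw [hqd]
      push_cast at h'
      exact h'
    have hq2 : 0 < q ^ 2 - 1 := by nlinarith
    have s1 : (q ^ 2 - 1) ^ 2 * ∑ w : Matrix I I F, (nr D₁ w : ℝ) * nr D₂ w ≤
        ∑ w : Matrix I I F, (kr D₁ w : ℝ) * kr D₂ w := by
      rw [Finset.mul_sum]
      refine Finset.sum_le_sum fun w _ => ?_
      have a1 := hkn D₁ w hA1
      have a2 := hkn D₂ w hA2
      calc (q ^ 2 - 1) ^ 2 * ((nr D₁ w : ℝ) * nr D₂ w)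
          = ((q ^ 2 - 1) * (nr D₁ w : ℝ)) * ((q ^ 2 - 1) * nr D₂ w) := by ring
        _ ≤ _ := mul_le_mul a1 a2 (by positivity) (by positivity)
    have s2 : q ^ 4 + 2 * q ^ 3 + 2 * q ^ 2 ≤ (1 + 4 / q) * (q ^ 2 - 1) ^ 2 := by
      have : (1 + 4 / q) * (q ^ 2 - 1) ^ 2 = (q + 4) * (q ^ 2 - 1) ^ 2 / q := by
        field_simp
      rw [this, le_div_iff₀ hq0]
      have hq3 : 0 ≤ q - 8 := by linarith
      nlinarith [mul_nonneg hq3 hq3, mul_nonneg (mul_nonneg hq3 hq3) hq3,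
        mul_nonneg (mul_nonneg (mul_nonneg hq3 hq3) hq3) hq3]
    have s3 : (q ^ 2 - 1) ^ 2 * ∑ w : Matrix I I F, (nr D₁ w : ℝ) * nr D₂ w ≤
        (q ^ 2 - 1) ^ 2 * ((1 + 4 / q) * M) := by
      refine (s1.trans m').trans ?_
      calc (q ^ 4 + 2 * q ^ 3 + 2 * q ^ 2) * M ≤ ((1 + 4 / q) * (q ^ 2 - 1) ^ 2) * M :=
            mul_le_mul_of_nonneg_right s2 hM0
        _ = _ := by ring
    exact le_of_mul_le_mul_left s3 (by positivity)
  have key := comb (fun w => Gd D₁ w) (fun w => Gd D₂ w) (fun w => nr D₁ w) (fun w => nr D₂ w) g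
    (2 - K₂ / q) (K₁ / q) (1 + 4 / q) M (hN' D₁) (hN' D₂) e1 e2 f1 f2 mm
  rw [← hMd, Nat.card_eq_fintype_card, Fintype.card_subtype]
  have hpos : 1 ≤ 2 * (2 - K₂ / q) - 2 * (g : ℝ) ^ 2 * (K₁ / q) - 2 * (1 + 4 / q) := by
    have : 2 * (2 - K₂ / q) - 2 * (g : ℝ) ^ 2 * (K₁ / q) - 2 * (1 + 4 / q) =
        2 - (2 * K₂ + 2 * (g : ℝ) ^ 2 * K₁ + 8) / q := by ring
    rw [this]
    have h' : (2 * K₂ + 2 * (g : ℝ) ^ 2 * K₁ + 8) / q ≤ 1 := by
      rw [div_le_one hq0]; exact hq1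
    linarith
  have key2 : M ≤ (g : ℝ) ^ 2 *
      ((univ.filter fun w : Matrix I I F => Gd D₁ w ∧ Gd D₂ w ∧ nr D₁ w ≠ nr D₂ w).card : ℝ) :=
    le_trans (by nlinarith) key
  rw [div_mul_eq_mul_div, one_mul, div_le_iff₀ (by positivity)]
  linarith

end Pool.Agent.H47.PT.PAIR
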