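import Pool.Agent.H47.PT.Stm

/-! # PT-SQ -/

set_option autoImplicit false

namespace Pool.Agent.H47.PT.SQ

open Polynomial Pool.Agent.H47.PT

theorem main : S_SQ := by
  intro F _ f h c hc hf hh
  have hd : h ^ 2 ∣ f ^ 2 := by
    refine ⟨C c⁻¹, ?_⟩
    rw [hh, mul_comm (C c), mul_assoc, ← C_mul, mul_inv_cancel₀ hc, C_1, mul_one]
  have hd' : h ∣ f := (IsIntegrallyClosed.pow_dvd_pow_iff two_ne_zero).1 hd
  refine ⟨hf.squarefree_of_dvd hd', fun x => ?_⟩
  have h1 := congrArg (eval x) hh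
  rw [eval_pow, eval_mul, eval_pow, eval_C] at h1
  constructor
  · intro h0
    rw [h0, zero_pow two_ne_zero] at h1
    rcases mul_eq_zero.1 h1.symm with h2 | h2
    · exact absurd h2 hc
    · exact pow_eq_zero_iff two_ne_zero |>.1 h2
  · intro h0
    rw [h0, zero_pow two_ne_zero, mul_zero] at h1
    exact pow_eq_zero_iff two_ne_zero |>.1 h1

end Pool.Agent.H47.PT.SQ
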