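import Pool.Agent.H47.PT.Stm

/-!
# PT-SQF: monic polynomials which are not squarefree
-/

set_option autoImplicit false

namespace Pool.Agent.H47.PT.SQF

open Polynomial

noncomputable section

variable {F : Type} [Field F]

/-- the monic polynomial with the coefficients `c` -/
def pol (g : ℕ) (c : Fin g → F) : F[X] := X ^ g + ∑ j : Fin g, C (c j) * X ^ (j : ℕ)

theorem coeff_pol (g : ℕ) (c : Fin g → F) (j : Fin g) : (pol g c).coeff j = c j := by
  unfold pol
  rw [coeff_add, coeff_X_pow, if_neg (by have := j.2; omega), zero_add, finsetSum_coeff]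
  rw [Finset.sum_eq_single j]
  · rw [coeff_C_mul_X_pow, if_pos rfl]
  · intro i _ hi
    rw [coeff_C_mul_X_pow, if_neg]
    intro h
    exact hi (Fin.ext h.symm)
  · intro h
    exact absurd (Finset.mem_univ _) h

theorem pol_injective (g : ℕ) : Function.Injective (pol (F := F) g) := by
  intro a b h
  funext j
  rw [← coeff_pol g a j, ← coeff_pol g b j, h]

theorem exists_pol (f : F[X]) (hf : f.Monic) (g : ℕ) (hg : f.natDegree = g) : ∃ c : Fin g → F, f = pol g c := by
  subst hg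
  refine ⟨fun j => f.coeff j, ?_⟩
  conv_lhs => rw [hf.as_sum]
  unfold pol
  rw [Finset.sum_range]

theorem monic_pol (g : ℕ) (c : Fin g → F) : (pol g c).Monic ∧ (pol g c).natDegree = g := by
  have h1 : (∑ j : Fin g, C (c j) * X ^ (j : ℕ)).degree < (g : WithBot ℕ) := by
    refine lt_of_le_of_lt (degree_sum_le _ _) ?_
    refine (Finset.sup_lt_iff (WithBot.bot_lt_coe g)).2 fun j _ => ?_
    refine lt_of_le_of_lt (degree_C_mul_X_pow_le _ _) ?_
    exact WithBot.coe_lt_coe.2 j.2
  refine ⟨monic_X_pow_add h1, ?_⟩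
  unfold pol
  rw [natDegree_add_eq_left_of_degree_lt (by rw [degree_X_pow]; exact h1), natDegree_X_pow]

theorem factor (g : ℕ) (c : Fin g → F) (h : ¬ Squarefree (pol g c)) :
    ∃ k : Fin g, 2 * (k.1 + 1) ≤ g ∧ ∃ (a : Fin (k.1 + 1) → F) (b : Fin (g - 2 * (k.1 + 1)) → F),
      pol g c = pol (k.1 + 1) a ^ 2 * pol (g - 2 * (k.1 + 1)) b := by
  obtain ⟨hm, hd⟩ := monic_pol g c
  unfold Squarefree at h
  push Not at h
  obtain ⟨x, hx, hu⟩ := h
  have hx0 : x ≠ 0 := by
    rintro rfl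
    rw [zero_mul, zero_dvd_iff] at hx
    exact hm.ne_zero hx
  obtain ⟨y, hy⟩ := hx
  have hl : x.leadingCoeff ≠ 0 := leadingCoeff_ne_zero.2 hx0
  have hum : (x * C x.leadingCoeff⁻¹).Monic := monic_mul_leadingCoeff_inv hx0
  have hud : (x * C x.leadingCoeff⁻¹).natDegree = x.natDegree := natDegree_mul_C (inv_ne_zero hl)
  have hxd : 0 < x.natDegree := by
    rw [Nat.pos_iff_ne_zero]
    intro h0
    refine hu ?_
    rw [eq_C_of_natDegree_eq_zero h0] at hx0 ⊢
    exact isUnit_C.2 (isUnit_iff_ne_zero.2 fun h => hx0 (by rw [h, C_0]))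
  set u : F[X] := x * C x.leadingCoeff⁻¹ with hu'
  set v : F[X] := C x.leadingCoeff * C x.leadingCoeff * y with hv
  have hC : C x.leadingCoeff⁻¹ * C x.leadingCoeff = 1 := by
    rw [← C_mul, inv_mul_cancel₀ hl, C_1]
  have huv : pol g c = u ^ 2 * v := by
    rw [hy, hu', hv]
    calc x * x * y = x * x * (1 * 1) * y := by ring
      _ = x * x * ((C x.leadingCoeff⁻¹ * C x.leadingCoeff) * (C x.leadingCoeff⁻¹ * C x.leadingCoeff)) * y := by
        rw [hC]
      _ = _ := by ring
  have hvm : v.Monic := by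
    refine (hum.pow 2).of_mul_monic_left ?_
    rw [← huv]
    exact hm
  have hdeg : g = 2 * x.natDegree + v.natDegree := by
    have := congrArg natDegree huv
    rw [(hum.pow 2).natDegree_mul hvm, hum.natDegree_pow, hud, hd] at this
    exact this
  refine ⟨⟨x.natDegree - 1, by omega⟩, ?_, ?_⟩
  · change 2 * (x.natDegree - 1 + 1) ≤ g
    omega
  · obtain ⟨a, ha⟩ := exists_pol u hum (x.natDegree - 1 + 1) (by omega)
    obtain ⟨b, hb⟩ := exists_pol v hvm (g - 2 * (x.natDegree - 1 + 1)) (by omega)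
    refine ⟨a, b, ?_⟩
    rw [huv, ha, hb]

theorem main : S_SQF := by
  intro F _ _ g hg
  classical
  change Nat.card {c : Fin g → F // ¬ Squarefree (pol g c)} ≤ _
  let K : Type := {k : Fin g // 2 * (k.1 + 1) ≤ g}
  let T : Type := Σ k : K, (Fin (k.1.1 + 1) → F) × (Fin (g - 2 * (k.1.1 + 1)) → F)
  have hf : ∀ c : {c : Fin g → F // ¬ Squarefree (pol g c)}, ∃ t : T,
      pol g c.1 = pol (t.1.1.1 + 1) t.2.1 ^ 2 * pol (g - 2 * (t.1.1.1 + 1)) t.2.2 := by
    rintro ⟨c, hc⟩
    obtain ⟨k, hk, a, b, h⟩ := factor g c hc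
    exact ⟨⟨⟨k, hk⟩, a, b⟩, h⟩
  choose φ hφ using hf
  have hinj : Function.Injective φ := by
    intro a b h
    refine Subtype.ext (pol_injective g ?_)
    rw [hφ a, hφ b, h]
  have h1 := Nat.card_le_card_of_injective φ hinj
  refine h1.trans ?_
  have hq : 1 ≤ Fintype.card F := Fintype.card_pos
  rw [Nat.card_sigma]
  have h2 : ∀ k : K, Nat.card ((Fin (k.1.1 + 1) → F) × (Fin (g - 2 * (k.1.1 + 1)) → F)) ≤
      Fintype.card F ^ (g - 1) := by
    intro k
    rw [Nat.card_prod, Nat.card_fun, Nat.card_fun, Nat.card_eq_fintype_card, Nat.card_eq_fintype_card,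
      Nat.card_eq_fintype_card, Fintype.card_fin, Fintype.card_fin, ← pow_add]
    refine Nat.pow_le_pow_right hq ?_
    have := k.2
    omega
  refine (Finset.sum_le_card_nsmul _ _ _ fun k _ => h2 k).trans ?_
  rw [smul_eq_mul]
  refine Nat.mul_le_mul_right _ ?_
  refine (Finset.card_le_univ _).trans ?_
  refine (Fintype.card_le_of_injective (fun k : K => k.1) Subtype.val_injective).trans ?_
  rw [Fintype.card_fin]

end

end Pool.Agent.H47.PT.SQF
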