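import Pool.Agent.H47.PT.Stm

/-! # PT-YS (helper72): integers `y` with `det (D₁ + y D₂) ≠ 0` -/

set_option autoImplicit false

namespace Pool.Agent.H47.PT.YS

open Matrix Polynomial

theorem main : S_YS := by
  intro I _ _ D₁ D₂ h r
  set P : ℤ[X] := (D₁.map (C : ℤ →+* ℤ[X]) + (X : ℤ[X]) • D₂.map (C : ℤ →+* ℤ[X])).det with hP
  have hev : ∀ y : ℤ, P.eval y = (D₁ + y • D₂).det := by
    intro y
    have e : P.eval y = (evalRingHom y) P := rfl
    rw [e, hP, RingHom.map_det]
    congr 1
    ext i j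
    simp only [RingHom.mapMatrix_apply, Matrix.map_apply, Matrix.add_apply, Matrix.smul_apply,
      smul_eq_mul, coe_evalRingHom, eval_add, eval_mul, eval_C, eval_X]
  have hP0 : P ≠ 0 := by
    intro h0
    have := hev 0
    rw [h0] at this
    simp at this
    exact h this.symm
  have hfin : {y : ℤ | P.eval y = 0}.Finite := by
    refine (P.roots.toFinset.finite_toSet).subset ?_
    intro y hy
    simpa [hP0] using hy
  have hinf : ({y : ℤ | P.eval y = 0}ᶜ : Set ℤ).Infinite := hfin.infinite_compl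
  let f : ℕ ↪ ({y : ℤ | P.eval y = 0}ᶜ : Set ℤ) := hinf.natEmbedding
  refine ⟨fun i => (f (i : ℕ) : ℤ), ?_, ?_⟩
  · intro i j hij
    have h1 := Subtype.val_injective hij
    exact Fin.ext (f.injective h1)
  · intro i
    rw [← hev]
    exact (f (i : ℕ)).2

end Pool.Agent.H47.PT.YS
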