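import Pool.Agent.H47.PT.Stm
import Pool.Agent.H47.PF.Fin
import Pool.Agent.H47.PD.T.CHARP

/-! # PT-MOM1: the second moment of the number of the singular translates -/

set_option autoImplicit false

namespace Pool.Agent.H47.PT.MOM1

open Matrix Polynomial Pool.Agent.H47.PF Pool.Agent.H47.PD

noncomputable section

/-- the monic polynomial with the coefficients `c` -/
def fc {F : Type} [Field F] (g : ℕ) (c : Fin g → F) : F[X] :=
  X ^ g + ∑ j : Fin g, C (c j) * X ^ (j : ℕ)

/-- the number of its zeros -/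
def N {F : Type} [Field F] (g : ℕ) (c : Fin g → F) : ℕ :=
  Nat.card {x : F // x ^ g + ∑ j : Fin g, c j * x ^ (j : ℕ) = 0}

theorem fc_eval {F : Type} [Field F] (g : ℕ) (c : Fin g → F) (x : F) :
    (fc g c).eval x = x ^ g + ∑ j : Fin g, c j * x ^ (j : ℕ) := by
  rw [fc, eval_add, eval_finsetSum]
  simp

theorem N_le {F : Type} [Field F] [Fintype F] (g : ℕ) (c : Fin g → F) : N g c ≤ g := by
  classical
  by_contra hcon
  push Not at hcon
  have h0 : N g c = (Finset.univ.filter fun x : F =>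
      x ^ g + ∑ j : Fin g, c j * x ^ (j : ℕ) = 0).card := by
    rw [N, Nat.card_eq_fintype_card, Fintype.card_subtype]
  have h1 := NOROOT.count g (Finset.univ.filter fun x : F =>
      x ^ g + ∑ j : Fin g, c j * x ^ (j : ℕ) = 0)
  rw [if_neg (by omega), Finset.card_eq_zero, Finset.filter_eq_empty_iff] at h1
  exact h1 (Finset.mem_univ c) fun x hx => (Finset.mem_filter.mp hx).2

theorem comp_neg_comp {F : Type} [Field F] (f : F[X]) : (f.comp (-X)).comp (-X) = f := by
  rw [comp_assoc]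
  simp

theorem sq_comp {F : Type} [Field F] {f : F[X]} (h : Squarefree f) : Squarefree (f.comp (-X)) := by
  intro x hx
  obtain ⟨y, hy⟩ := hx
  have h1 : (x.comp (-X)) * (x.comp (-X)) ∣ f := by
    refine ⟨y.comp (-X), ?_⟩
    rw [← mul_comp, ← mul_comp, ← hy, comp_neg_comp]
  have h2 := h _ h1
  have h3 : IsUnit ((x.comp (-X)).comp (-X)) := by
    have := h2.map (Polynomial.compRingHom (-X))
    exact this
  rwa [comp_neg_comp] at h3

section

variable {F : Type} [Field F] {I : Type} [Fintype I] [DecidableEq I]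

theorem key {D w : Matrix I I F} {e : I → F} {g : ℕ} {c : Fin g → F} (hD : Al D)
    (hdet : IsUnit D.det) (hI : Fintype.card I = 2 * g) (hcy : Cyc D e g w)
    (hch : chain D e w g = -∑ j : Fin g, c j • chain D e w j) (hsq : Squarefree (fc g c)) :
    Gd D w ∧ nr D w = N g c := by
  have h4 := Pool.Agent.H47.PD.CHARP.main F I D (w - wᵀ) e g c hD.1 (by
      ext u v; rw [Matrix.transpose_apply, Matrix.neg_apply]; exact hD.2 v u)
    (fun u => by simp) (by rw [Matrix.transpose_sub, Matrix.transpose_transpose, neg_sub]) hdet hI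
    hcy hch
  change ((X : F[X]) • D.map C - (w - wᵀ).map C).det = C D.det * (fc g c) ^ 2 at h4
  have hev : ∀ x : F, ((w - wᵀ) + x • D).det = D.det * ((fc g c).eval (-x)) ^ 2 := by
    intro x
    have h5 := congrArg (Polynomial.eval (-x)) h4
    rw [eval_mul, eval_C, eval_pow] at h5
    rw [← h5]
    have e1 : Polynomial.eval (-x) ((X : F[X]) • D.map C - (w - wᵀ).map C).det =
        ((-x) • D - (w - wᵀ)).det := by
      change Polynomial.evalRingHom (-x) _ = _
      rw [RingHom.map_det]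
      congr 1
      ext1 u v
      simp [Matrix.map_apply]
      ring
    rw [e1]
    have e2 : ((-x) • D - (w - wᵀ)) = -((w - wᵀ) + x • D) := by
      rw [neg_smul, neg_add]
      abel
    rw [e2, Matrix.det_neg, hI, Even.neg_one_pow (even_two_mul g), one_mul]
  refine ⟨⟨D.det, (fc g c).comp (-X), hdet.ne_zero, sq_comp hsq, ?_⟩, ?_⟩
  · have h5 := congrArg (fun q : F[X] => q.comp (-X)) h4
    simp only [Polynomial.mul_comp, Polynomial.C_comp, Polynomial.pow_comp] at h5
    rw [← h5]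
    have e1 : (((X : F[X]) • D.map C - (w - wᵀ).map C).det).comp (-X) =
        ((-X : F[X]) • D.map C - (w - wᵀ).map C).det := by
      change Polynomial.compRingHom (-X) _ = _
      rw [RingHom.map_det]
      congr 1
      ext1 u v
      simp [Matrix.map_apply]
    rw [e1]
    have e2 : ((-X : F[X]) • D.map C - (w - wᵀ).map C) =
        -((w - wᵀ).map C + (X : F[X]) • D.map C) := by
      rw [neg_smul, neg_add]
      abel
    rw [e2, Matrix.det_neg, hI, Even.neg_one_pow (even_two_mul g), one_mul]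
  · rw [nr, N]
    refine Nat.card_congr (Equiv.subtypeEquiv (Equiv.neg F) fun x => ?_)
    rw [hev, Equiv.neg_apply, fc_eval]
    constructor
    · intro h
      exact pow_eq_zero_iff two_ne_zero |>.mp ((mul_eq_zero.mp h).resolve_left hdet.ne_zero)
    · intro h
      rw [h]
      simp

theorem uniq {D w : Matrix I I F} {e : I → F} {g : ℕ} {c c' : Fin g → F} (hcy : Cyc D e g w)
    (h : chain D e w g = -∑ j : Fin g, c j • chain D e w j)
    (h' : chain D e w g = -∑ j : Fin g, c' j • chain D e w j) : c = c' := by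
  have h1 : ∑ j : Fin g, (c j - c' j) • chain D e w j = 0 := by
    rw [h, neg_inj] at h'
    simp only [sub_smul, Finset.sum_sub_distrib]
    rw [h', sub_self]
  have h2 := Fintype.linearIndependent_iff.mp hcy _ h1
  funext j
  exact sub_eq_zero.mp (h2 j)

end

theorem cyc_ge (q g : ℕ) (hq : 2 ≤ q) (hg : 1 ≤ g) : 1 - (g : ℝ) / q ≤ Cnt.cyc q g := by
  have hq' : (2 : ℝ) ≤ q := by exact_mod_cast hq
  have hq0 : (0 : ℝ) < q := by linarith
  have h1 : (1 + -(1 / (q : ℝ) ^ 2)) ^ (g - 1) ≤ Cnt.cyc q g := by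
    rw [Cnt.cyc, ← Finset.card_range (g - 1), ← Finset.prod_const, Finset.card_range]
    refine Finset.prod_le_prod (fun m _ => ?_) fun m _ => ?_
    · have : 1 / (q : ℝ) ^ 2 ≤ 1 := by
        rw [div_le_one (by positivity)]
        nlinarith
      linarith
    · have h2 : (q : ℝ) ^ 2 ≤ (q : ℝ) ^ (2 * (m + 1)) :=
        pow_le_pow_right₀ (by linarith) (by omega)
      have h3 : 1 / (q : ℝ) ^ (2 * (m + 1)) ≤ 1 / (q : ℝ) ^ 2 :=
        one_div_le_one_div_of_le (by positivity) h2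
      linarith
  have h2 : (-2 : ℝ) ≤ -(1 / (q : ℝ) ^ 2) := by
    have : 1 / (q : ℝ) ^ 2 ≤ 1 := by
      rw [div_le_one (by positivity)]
      nlinarith
    linarith
  have h3 := one_add_mul_le_pow h2 (g - 1)
  have h4 : ((g - 1 : ℕ) : ℝ) * (1 / (q : ℝ) ^ 2) ≤ (g : ℝ) / q := by
    have h5 : ((g - 1 : ℕ) : ℝ) ≤ g := by exact_mod_cast Nat.sub_le g 1
    have h6 : 1 / (q : ℝ) ^ 2 ≤ 1 / q :=
      one_div_le_one_div_of_le hq0 (by nlinarith)
    calc ((g - 1 : ℕ) : ℝ) * (1 / (q : ℝ) ^ 2) ≤ g * (1 / q) :=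
          mul_le_mul h5 h6 (by positivity) (by positivity)
      _ = _ := by ring
  linarith

theorem main : S_SQF → S_NSQ → S_MOM1 := by
  intro hSQF hNSQ g hg
  refine ⟨1 + g ^ 3 + 2 * g, by positivity, fun F _ _ I _ _ D hI hD hdet => ?_⟩
  classical
  have hq2 : 2 ≤ Fintype.card F := Fintype.one_lt_card
  obtain ⟨q, hq⟩ : ∃ q, q = Fintype.card F := ⟨_, rfl⟩
  rw [← hq] at hq2 ⊢
  have hq' : (2 : ℝ) ≤ q := by exact_mod_cast hq2
  have hq0 : (0 : ℝ) < q := by linarith
  have hne : Nonempty I := Fintype.card_pos_iff.mp (by omega)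
  obtain ⟨i0⟩ := hne
  obtain ⟨e, he⟩ : ∃ e : I → F, e ≠ 0 := ⟨Pi.single i0 1, fun h => by
    have := congrFun h i0
    simp at this⟩
  have hcyc := Pool.Agent.H47.PF.Fin.cyc F I D e g hD hdet hI (by omega) he
  obtain ⟨A, hA⟩ : ∃ A : ℝ, A = Nat.card {w : Matrix I I F // Cyc D e g w} := ⟨_, rfl⟩
  obtain ⟨M, hM⟩ : ∃ M : ℝ, M = Nat.card (Matrix I I F) := ⟨_, rfl⟩
  have hM0 : 0 ≤ M := by rw [hM]; positivity
  have hA0 : 0 ≤ A := by rw [hA]; positivity
  have hAM : (1 - (g : ℝ) / q) * M ≤ A := by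
    have h1 := cyc_ge q g hq2 (by omega)
    rw [Cnt.cyc] at h1
    rw [Nat.card_eq_fintype_card (α := F), ← hq] at hcyc
    rw [hA, hM]
    exact (mul_le_mul_of_nonneg_right h1 (Nat.cast_nonneg _)).trans hcyc
  rw [← hM]
  -- the right side
  obtain ⟨Sq, hSq⟩ : ∃ Sq : Finset (Fin g → F), Sq = Finset.univ.filter fun c =>
    Squarefree (fc g c) := ⟨_, rfl⟩
  obtain ⟨rel, hrel⟩ : ∃ rel : (Fin g → F) → Matrix I I F → Prop, ∀ c w, rel c w ↔
    (Cyc D e g w ∧ chain D e w g = -∑ j : Fin g, c j • chain D e w j) := ⟨_, fun _ _ => Iff.rfl⟩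
  obtain ⟨R, hR⟩ : ∃ R : ℝ, R = ∑ᶠ w : {w : Matrix I I F // Gd D w}, (nr D w.1 : ℝ) ^ 2 :=
    ⟨_, rfl⟩
  rw [← hR]
  have hR1 : R = ∑ w : Matrix I I F, if Gd D w then (nr D w : ℝ) ^ 2 else 0 := by
    rw [hR, finsum_eq_sum_of_fintype, ← Finset.sum_filter]
    exact (Finset.sum_subtype (Finset.univ.filter (Gd D)) (fun w => by simp)
      (fun w => (nr D w : ℝ) ^ 2)).symm
  have hpt : ∀ w : Matrix I I F, ∑ c ∈ Sq, (if rel c w then (N g c : ℝ) ^ 2 else 0) ≤
      if Gd D w then (nr D w : ℝ) ^ 2 else 0 := by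
    intro w
    by_cases hex : ∃ c ∈ Sq, rel c w
    · obtain ⟨c, hc, hcw⟩ := hex
      rw [hSq, Finset.mem_filter] at hc
      have h1 := key hD hdet hI ((hrel c w).mp hcw).1 ((hrel c w).mp hcw).2 hc.2
      rw [if_pos h1.1, h1.2]
      rw [Finset.sum_eq_single_of_mem c (by rw [hSq, Finset.mem_filter]; exact hc)]
      · rw [if_pos hcw]
      · intro c' _ hne
        rw [if_neg]
        intro hc'w
        exact hne (uniq ((hrel c w).mp hcw).1 ((hrel c' w).mp hc'w).2 ((hrel c w).mp hcw).2)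
    · push Not at hex
      rw [Finset.sum_eq_zero fun c hc => if_neg (hex c hc)]
      split_ifs <;> positivity
  have hcard : ∀ c : Fin g → F, A ≤ (q : ℝ) ^ g * (Finset.univ.filter (rel c)).card := by
    intro c
    have h1 := Pool.Agent.H47.PF.Fin.last F I D e g hD hdet hI (by omega) {c}
    have h2 : Nat.card ({c} : Set (Fin g → F)) = 1 := by simp
    have h3 : Nat.card {w : Matrix I I F // Cyc D e g w ∧
        ∃ c' ∈ ({c} : Set (Fin g → F)), chain D e w g = -∑ j : Fin g, c' j • chain D e w j} =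
        (Finset.univ.filter (rel c)).card := by
      rw [Nat.card_eq_fintype_card, Fintype.card_subtype]
      congr 1
      ext w
      simp [hrel]
    rw [h2, h3, one_mul, Nat.card_eq_fintype_card (α := F), ← hq] at h1
    rw [hA]
    exact_mod_cast h1
  have hsum : A * ∑ c ∈ Sq, (N g c : ℝ) ^ 2 ≤ (q : ℝ) ^ g * R := by
    have h1 : ∑ w : Matrix I I F, ∑ c ∈ Sq, (if rel c w then (N g c : ℝ) ^ 2 else 0) ≤ R := by
      rw [hR1]
      exact Finset.sum_le_sum fun w _ => hpt w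
    rw [Finset.sum_comm] at h1
    have h2 : ∀ c ∈ Sq, ∑ w : Matrix I I F, (if rel c w then (N g c : ℝ) ^ 2 else 0) =
        (Finset.univ.filter (rel c)).card * (N g c : ℝ) ^ 2 := by
      intro c _
      rw [← Finset.sum_filter, Finset.sum_const, nsmul_eq_mul]
    rw [Finset.sum_congr rfl h2] at h1
    calc A * ∑ c ∈ Sq, (N g c : ℝ) ^ 2 = ∑ c ∈ Sq, A * (N g c : ℝ) ^ 2 := Finset.mul_sum _ _ _
      _ ≤ ∑ c ∈ Sq, ((q : ℝ) ^ g * (Finset.univ.filter (rel c)).card) * (N g c : ℝ) ^ 2 :=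
          Finset.sum_le_sum fun c _ => mul_le_mul_of_nonneg_right (hcard c) (by positivity)
      _ = (q : ℝ) ^ g * ∑ c ∈ Sq, (Finset.univ.filter (rel c)).card * (N g c : ℝ) ^ 2 := by
          rw [Finset.mul_sum]
          exact Finset.sum_congr rfl fun c _ => by ring
      _ ≤ (q : ℝ) ^ g * R := mul_le_mul_of_nonneg_left h1 (by positivity)
  -- the sum over the squarefree polynomials
  have hS : (q : ℝ) ^ g * (2 - (1 + g ^ 3) / q) ≤ ∑ c ∈ Sq, (N g c : ℝ) ^ 2 := by
    have h1 := hNSQ F g hg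
    have h2 := hSQF F g (by omega)
    rw [← hq] at h1 h2
    change (∑ c : Fin g → F, N g c ^ 2) + q ^ (g - 1) = 2 * q ^ g at h1
    have h3 : (Finset.univ.filter fun c : Fin g → F => ¬ Squarefree (fc g c)).card ≤
        g * q ^ (g - 1) := by
      rw [← Fintype.card_subtype, ← Nat.card_eq_fintype_card]
      exact h2
    have h4 : ∑ c ∈ Finset.univ.filter (fun c : Fin g → F => ¬ Squarefree (fc g c)), N g c ^ 2 ≤
        g ^ 3 * q ^ (g - 1) := by
      calc ∑ c ∈ Finset.univ.filter (fun c : Fin g → F => ¬ Squarefree (fc g c)), N g c ^ 2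
          ≤ ∑ c ∈ Finset.univ.filter (fun c : Fin g → F => ¬ Squarefree (fc g c)), g ^ 2 :=
            Finset.sum_le_sum fun c _ => Nat.pow_le_pow_left (N_le g c) 2
        _ = (Finset.univ.filter fun c : Fin g → F => ¬ Squarefree (fc g c)).card * g ^ 2 := by
            rw [Finset.sum_const, smul_eq_mul]
        _ ≤ (g * q ^ (g - 1)) * g ^ 2 := Nat.mul_le_mul_right _ h3
        _ = g ^ 3 * q ^ (g - 1) := by ring
    have h5 := Finset.sum_filter_add_sum_filter_not Finset.univ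
      (fun c : Fin g → F => Squarefree (fc g c)) (fun c => N g c ^ 2)
    rw [← hSq] at h5
    have h6 : (2 : ℝ) * q ^ g ≤ (∑ c ∈ Sq, (N g c : ℝ) ^ 2) + g ^ 3 * q ^ (g - 1) + q ^ (g - 1) := by
      have h7 : 2 * q ^ g ≤ (∑ c ∈ Sq, N g c ^ 2) + g ^ 3 * q ^ (g - 1) + q ^ (g - 1) := by omega
      exact_mod_cast h7
    have h8 : (q : ℝ) ^ g = q ^ (g - 1) * q := by
      rw [← pow_succ, Nat.sub_add_cancel (by omega)]
    have h9 : (q : ℝ) ^ g * (2 - (1 + g ^ 3) / q) = 2 * q ^ g - (1 + g ^ 3) * q ^ (g - 1) := by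
      rw [mul_sub, h8]
      field_simp
    rw [h9]
    linarith
  -- the end
  by_cases hneg : 2 - (1 + (g : ℝ) ^ 3 + 2 * g) / q ≤ 0
  · have h1 : (2 - (1 + (g : ℝ) ^ 3 + 2 * g) / q) * M ≤ 0 := mul_nonpos_of_nonpos_of_nonneg hneg hM0
    refine h1.trans ?_
    rw [hR1]
    exact Finset.sum_nonneg fun w _ => by split_ifs <;> positivity
  · push Not at hneg
    obtain ⟨t, ht⟩ : ∃ t : ℝ, t = 2 - (1 + (g : ℝ) ^ 3) / q := ⟨_, rfl⟩
    have h1 : 2 - (1 + (g : ℝ) ^ 3 + 2 * g) / q = t - 2 * (g / q) := by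
      rw [ht]; ring
    have hgq : 0 ≤ (g : ℝ) / q := by positivity
    have ht0 : 0 < t := by rw [h1] at hneg; linarith
    have ht2 : t ≤ 2 := by
      rw [ht]
      have : 0 ≤ (1 + (g : ℝ) ^ 3) / q := by positivity
      linarith
    have h2 : A * t ≤ R := by
      have hqg : (0 : ℝ) < (q : ℝ) ^ g := by positivity
      refine le_of_mul_le_mul_left ?_ hqg
      calc (q : ℝ) ^ g * (A * t) = A * ((q : ℝ) ^ g * (2 - (1 + g ^ 3) / q)) := by rw [ht]; ring
        _ ≤ A * ∑ c ∈ Sq, (N g c : ℝ) ^ 2 := mul_le_mul_of_nonneg_left hS hA0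
        _ ≤ _ := hsum
    rw [h1]
    calc (t - 2 * (g / q)) * M ≤ ((1 - (g : ℝ) / q) * t) * M := by
          refine mul_le_mul_of_nonneg_right ?_ hM0
          nlinarith
      _ = ((1 - (g : ℝ) / q) * M) * t := by ring
      _ ≤ A * t := mul_le_mul_of_nonneg_right hAM ht0.le
      _ ≤ R := h2

end

end Pool.Agent.H47.PT.MOM1
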